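import Mathlib

/-!
# The sum over all sizes
-/

set_option autoImplicit false

namespace Pool.Agent.Lib.FA

open Finset Filter Topology

/-- geometric sums -/
private lemma asy_geom {b : ℝ} (hb0 : 0 ≤ b) (hb : b ≤ 1 / 2) (S : ℕ) :
    ∑ s ∈ Icc 1 S, b ^ s ≤ 2 * b := by
  have h : ∀ S : ℕ, ∑ s ∈ Icc 1 S, b ^ s ≤ 2 * b - 2 * b ^ (S + 1) := by
    intro S
    induction S with
    | zero => simp
    | succ S ih =>
      rw [sum_Icc_succ_top (by omega)]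
      have h1 : (0 : ℝ) ≤ b ^ (S + 1) := pow_nonneg hb0 _
      have h2 : b ^ (S + 1 + 1) = b * b ^ (S + 1) := by ring
      rw [h2]
      nlinarith
  have h1 := h S
  have h2 : (0 : ℝ) ≤ b ^ (S + 1) := pow_nonneg hb0 _
  linarith

/-- the ceiling -/
private lemma asy_ceil {s : ℕ} (hs : 1 ≤ s) {x D : ℝ} (hx : 3 ≤ x) (hD : 1 ≤ D)
    (hsS : (s : ℝ) ≤ x ^ 2 / D ^ 17) :
    1 ≤ (⌈Real.sqrt (6 * s)⌉₊ : ℝ) ∧ (⌈Real.sqrt (6 * s)⌉₊ : ℝ) ≤ 4 * x * D ^ (-(17 / 2) : ℝ) := by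
  have hs' : (1 : ℝ) ≤ s := by exact_mod_cast hs
  have h0 : 0 < Real.sqrt (6 * s) := Real.sqrt_pos.2 (by linarith)
  constructor
  · have h1 : 0 < ⌈Real.sqrt (6 * s)⌉₊ := Nat.ceil_pos.2 h0
    exact_mod_cast h1
  · have h1 := (Nat.ceil_lt_add_one h0.le).le
    have hq : 1 ≤ Real.sqrt s := by rw [Real.one_le_sqrt]; exact hs'
    have h2 : Real.sqrt (6 * s) ≤ 3 * Real.sqrt s := by
      rw [Real.sqrt_mul (by norm_num)]
      have h3 : Real.sqrt 6 ≤ 3 := by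
        rw [Real.sqrt_le_left (by norm_num)]
        norm_num
      exact mul_le_mul_of_nonneg_right h3 (Real.sqrt_nonneg _)
    have h4 : Real.sqrt s ≤ x * D ^ (-(17 / 2) : ℝ) := by
      rw [Real.sqrt_le_left (by positivity), mul_pow]
      have h5 : (D ^ (-(17 / 2) : ℝ)) ^ 2 = (D ^ 17)⁻¹ := by
        rw [← Real.rpow_natCast, ← Real.rpow_mul (by linarith), ← Real.rpow_natCast,
          ← Real.rpow_neg (by linarith)]
        norm_num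
      rw [h5]
      exact hsS
    linarith

/-- the bound of the base -/
private lemma asy_base {x D r : ℝ} (hx : 3 ≤ x) (hD : 1 ≤ D) (hr1 : 1 ≤ r)
    (hr : r ≤ 4 * x * D ^ (-(17 / 2) : ℝ)) :
    10 ^ 15 * (4 * x) ^ (7 / 8 : ℝ) * r ^ (1 / 8 + 1 / Real.log x) * (D / x) ≤
      48 * 10 ^ 15 * D ^ (-(1 / 16) : ℝ) := by
  have hx0 : 0 < x := by linarith
  have hD0 : 0 < D := by linarith
  have hr0 : 0 < r := by linarith
  have h4x : 0 < 4 * x := by linarith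
  have hlog : 1 ≤ Real.log x := by
    rw [Real.le_log_iff_exp_le hx0]
    exact (Real.exp_one_lt_d9.le.trans (by norm_num)).trans hx
  have hr4 : r ≤ 4 * x := by
    refine hr.trans ?_
    have h1 : D ^ (-(17 / 2) : ℝ) ≤ 1 := Real.rpow_le_one_of_one_le_of_nonpos hD (by norm_num)
    nlinarith
  -- the factor with the logarithm
  have hA : r ^ (1 / Real.log x) ≤ 12 := by
    have h1 : r ^ (1 / Real.log x) ≤ (4 * x) ^ (1 / Real.log x) :=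
      Real.rpow_le_rpow hr0.le hr4 (by positivity)
    refine h1.trans ?_
    rw [Real.mul_rpow (by norm_num) hx0.le]
    have h2 : (4 : ℝ) ^ (1 / Real.log x) ≤ 4 := by
      have h3 : (4 : ℝ) ^ (1 / Real.log x) ≤ (4 : ℝ) ^ (1 : ℝ) := by
        apply Real.rpow_le_rpow_of_exponent_le (by norm_num)
        rw [div_le_one (by linarith)]
        exact hlog
      rwa [Real.rpow_one] at h3
    have h3 : x ^ (1 / Real.log x) ≤ 3 := by
      rw [Real.rpow_def_of_pos hx0, mul_one_div_cancel (by linarith)]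
      exact Real.exp_one_lt_d9.le.trans (by norm_num)
    have h4 : 0 ≤ x ^ (1 / Real.log x) := Real.rpow_nonneg hx0.le _
    have h5 : 0 ≤ (4 : ℝ) ^ (1 / Real.log x) := Real.rpow_nonneg (by norm_num) _
    nlinarith
  -- the main factor
  have hB : r ^ (1 / 8 : ℝ) ≤ (4 * x) ^ (1 / 8 : ℝ) * D ^ (-(17 / 16) : ℝ) := by
    have h1 := Real.rpow_le_rpow hr0.le hr (show (0 : ℝ) ≤ 1 / 8 by norm_num)
    refine h1.trans (le_of_eq ?_)
    rw [Real.mul_rpow h4x.le (Real.rpow_nonneg hD0.le _), ← Real.rpow_mul hD0.le]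
    norm_num
  have hC : (4 * x) ^ (7 / 8 : ℝ) * (4 * x) ^ (1 / 8 : ℝ) = 4 * x := by
    rw [← Real.rpow_add h4x]
    norm_num
  have hE : D ^ (-(17 / 16) : ℝ) * D = D ^ (-(1 / 16) : ℝ) := by
    nth_rw 2 [← Real.rpow_one D]
    rw [← Real.rpow_add hD0]
    norm_num
  have h7 : 0 ≤ (4 * x) ^ (7 / 8 : ℝ) := Real.rpow_nonneg h4x.le _
  have h8 : 0 ≤ r ^ (1 / 8 : ℝ) := Real.rpow_nonneg hr0.le _
  have h9 : 0 ≤ r ^ (1 / Real.log x) := Real.rpow_nonneg hr0.le _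
  have h10 : 0 ≤ (4 * x) ^ (1 / 8 : ℝ) * D ^ (-(17 / 16) : ℝ) := by positivity
  rw [Real.rpow_add hr0]
  calc 10 ^ 15 * (4 * x) ^ (7 / 8 : ℝ) * (r ^ (1 / 8 : ℝ) * r ^ (1 / Real.log x)) * (D / x)
      ≤ 10 ^ 15 * (4 * x) ^ (7 / 8 : ℝ) *
        (((4 * x) ^ (1 / 8 : ℝ) * D ^ (-(17 / 16) : ℝ)) * 12) * (D / x) := by
        gcongr
    _ = 12 * 10 ^ 15 * ((4 * x) ^ (7 / 8 : ℝ) * (4 * x) ^ (1 / 8 : ℝ)) *
        (D ^ (-(17 / 16) : ℝ) * D) / x := by ring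
    _ = 48 * 10 ^ 15 * D ^ (-(1 / 16) : ℝ) := by
        rw [hC, hE]
        field_simp
        ring

/-- the bound of one term -/
private lemma asy_term {n s : ℕ} (hs : 1 ≤ s) {D : ℝ} (hx : (3 : ℝ) ≤ n) (hD : 1 ≤ D)
    (hsS : (s : ℝ) ≤ (n : ℝ) ^ 2 / D ^ 17) :
    ((10 ^ 15 : ℝ) ^ s * (4 * n : ℝ) ^ ((7 / 8 : ℝ) * s) *
        (⌈Real.sqrt (6 * s)⌉₊ : ℝ) ^ ((1 / 8 : ℝ) * s + ⌊(s : ℝ) / Real.log n⌋₊)) *
        (D / n) ^ s ≤ (48 * 10 ^ 15 * D ^ (-(1 / 16) : ℝ)) ^ s := by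
  obtain ⟨hr1, hr⟩ := asy_ceil hs hx hD hsS
  obtain ⟨r, hrdef⟩ : ∃ r : ℝ, r = (⌈Real.sqrt (6 * s)⌉₊ : ℝ) := ⟨_, rfl⟩
  rw [← hrdef] at hr1 hr ⊢
  have hbase := asy_base hx hD hr1 hr
  have hn0 : (0 : ℝ) < n := by linarith
  have hr0 : 0 < r := by linarith
  have hlog : 0 < Real.log n := Real.log_pos (by linarith)
  have h1 : r ^ ((1 / 8 : ℝ) * s + ⌊(s : ℝ) / Real.log n⌋₊) ≤
      (r ^ (1 / 8 + 1 / Real.log n)) ^ s := by
    rw [← Real.rpow_natCast (r ^ (1 / 8 + 1 / Real.log n)), ← Real.rpow_mul hr0.le]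
    apply Real.rpow_le_rpow_of_exponent_le hr1
    have h2 : (⌊(s : ℝ) / Real.log n⌋₊ : ℝ) ≤ (s : ℝ) / Real.log n :=
      Nat.floor_le (by positivity)
    have h3 : (1 / 8 + 1 / Real.log n) * (s : ℝ) = 1 / 8 * s + s / Real.log n := by ring
    rw [h3]
    linarith
  have h2 : (4 * n : ℝ) ^ ((7 / 8 : ℝ) * s) = ((4 * n : ℝ) ^ (7 / 8 : ℝ)) ^ s := by
    rw [← Real.rpow_natCast ((4 * n : ℝ) ^ (7 / 8 : ℝ)), ← Real.rpow_mul (by positivity)]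
  rw [h2]
  have hD0 : 0 < D := by linarith
  calc (10 ^ 15 : ℝ) ^ s * ((4 * n : ℝ) ^ (7 / 8 : ℝ)) ^ s *
        r ^ ((1 / 8 : ℝ) * s + ⌊(s : ℝ) / Real.log n⌋₊) * (D / n) ^ s
      ≤ (10 ^ 15 : ℝ) ^ s * ((4 * n : ℝ) ^ (7 / 8 : ℝ)) ^ s *
        (r ^ (1 / 8 + 1 / Real.log n)) ^ s * (D / n) ^ s := by
        gcongr
    _ = (10 ^ 15 * (4 * n : ℝ) ^ (7 / 8 : ℝ) * r ^ (1 / 8 + 1 / Real.log n) * (D / n)) ^ s := by
        rw [mul_pow, mul_pow, mul_pow]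
    _ ≤ (48 * 10 ^ 15 * D ^ (-(1 / 16) : ℝ)) ^ s := by
        apply pow_le_pow_left₀ _ hbase
        positivity

/-- the union bound summed over all sizes tends to zero -/
theorem asy (d : ℕ → ℝ) (hd : Tendsto d atTop atTop) :
    Tendsto (fun n : ℕ => ∑ s ∈ Icc 1 ⌊(n : ℝ) ^ 2 / d n ^ 17⌋₊,
      ((10 ^ 15 : ℝ) ^ s * (4 * n : ℝ) ^ ((7 / 8 : ℝ) * s) *
        (⌈Real.sqrt (6 * s)⌉₊ : ℝ) ^ ((1 / 8 : ℝ) * s + ⌊(s : ℝ) / Real.log n⌋₊)) *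
        (d n / n) ^ s) atTop (𝓝 0) := by
  have hlim : Tendsto (fun n : ℕ => 2 * (48 * 10 ^ 15 * d n ^ (-(1 / 16) : ℝ))) atTop (𝓝 0) := by
    have h1 := (tendsto_rpow_neg_atTop (show (0 : ℝ) < 1 / 16 by norm_num)).comp hd
    have h2 := (h1.const_mul (48 * 10 ^ 15 : ℝ)).const_mul 2
    rw [mul_zero, mul_zero] at h2
    exact h2
  have hlim2 : Tendsto (fun n : ℕ => 48 * 10 ^ 15 * d n ^ (-(1 / 16) : ℝ)) atTop (𝓝 0) := by
    have h1 := (tendsto_rpow_neg_atTop (show (0 : ℝ) < 1 / 16 by norm_num)).comp hd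
    have h2 := h1.const_mul (48 * 10 ^ 15 : ℝ)
    rw [mul_zero] at h2
    exact h2
  have hev1 : ∀ᶠ n : ℕ in atTop, 48 * 10 ^ 15 * d n ^ (-(1 / 16) : ℝ) < 1 / 2 :=
    hlim2.eventually (gt_mem_nhds (by norm_num))
  have hev2 : ∀ᶠ n : ℕ in atTop, 1 ≤ d n := hd.eventually_ge_atTop 1
  refine tendsto_of_tendsto_of_tendsto_of_le_of_le' tendsto_const_nhds hlim ?_ ?_
  · filter_upwards [hev2] with n hn
    apply sum_nonneg
    intro s _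
    have : (0 : ℝ) ≤ d n := by linarith
    positivity
  · filter_upwards [hev1, hev2, eventually_ge_atTop 3] with n h1 h2 h3
    have hn : (3 : ℝ) ≤ n := by exact_mod_cast h3
    have hd0 : (0 : ℝ) < d n := by linarith
    refine le_trans (sum_le_sum fun s hs => ?_) (asy_geom (by positivity) h1.le _)
    rw [mem_Icc] at hs
    refine asy_term hs.1 hn h2 ?_
    exact (Nat.le_floor_iff (by positivity)).1 hs.2

end Pool.Agent.Lib.FA
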