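import Pool.Agent.Lib.MP_6d56f7_co_FA.Defs

/-!
# The average number of new points
-/

set_option autoImplicit false

namespace Pool.Agent.Lib.FA

open Finset

variable {V : Type} [Fintype V] [DecidableEq V]

/-- the orders for which a given point of `Q` is the first one -/
private theorem share {m : ℕ} (Q : Finset V) {a : V} (ha : a ∈ Q) :
    Q.card * (univ.filter (fun π : V ≃ Fin m => ∀ y ∈ Q, π a ≤ π y)).card ≤
      Fintype.card (V ≃ Fin m) := by
  classical
  have hdis : ∀ x ∈ Q, ∀ x' ∈ Q, x ≠ x' →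
      Disjoint (univ.filter (fun π : V ≃ Fin m => ∀ y ∈ Q, π x ≤ π y))
        (univ.filter (fun π : V ≃ Fin m => ∀ y ∈ Q, π x' ≤ π y)) := by
    intro x hx x' hx' hne
    rw [Finset.disjoint_left]
    intro π h1 h2
    rw [mem_filter] at h1 h2
    exact hne (π.injective (le_antisymm (h1.2 x' hx') (h2.2 x hx)))
  have hcard : ∀ x ∈ Q,
      (univ.filter (fun π : V ≃ Fin m => ∀ y ∈ Q, π a ≤ π y)).card ≤
        (univ.filter (fun π : V ≃ Fin m => ∀ y ∈ Q, π x ≤ π y)).card := by
    intro x hx
    refine Finset.card_le_card_of_injOn (fun π => (Equiv.swap a x).trans π) ?_ ?_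
    · intro π hπ
      rw [mem_coe, mem_filter] at hπ ⊢
      refine ⟨mem_univ _, fun y hy => ?_⟩
      change π (Equiv.swap a x x) ≤ π (Equiv.swap a x y)
      rw [Equiv.swap_apply_right]
      apply hπ.2
      rcases eq_or_ne y a with h | h
      · rw [h, Equiv.swap_apply_left]
        exact hx
      · rcases eq_or_ne y x with h' | h'
        · rw [h', Equiv.swap_apply_right]
          exact ha
        · rw [Equiv.swap_apply_of_ne_of_ne h h']
          exact hy
    · intro π _ π' _ h
      ext y
      have := congrArg (fun e : V ≃ Fin m => e (Equiv.swap a x y)) h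
      simpa using congrArg Fin.val this
  calc Q.card * (univ.filter (fun π : V ≃ Fin m => ∀ y ∈ Q, π a ≤ π y)).card
      = ∑ _x ∈ Q, (univ.filter (fun π : V ≃ Fin m => ∀ y ∈ Q, π a ≤ π y)).card := by
        rw [Finset.sum_const, smul_eq_mul]
    _ ≤ ∑ x ∈ Q, (univ.filter (fun π : V ≃ Fin m => ∀ y ∈ Q, π x ≤ π y)).card :=
        Finset.sum_le_sum hcard
    _ = (Q.biUnion (fun x => univ.filter (fun π : V ≃ Fin m => ∀ y ∈ Q, π x ≤ π y))).card :=
        (Finset.card_biUnion hdis).symm
    _ ≤ (univ : Finset (V ≃ Fin m)).card := Finset.card_le_card (subset_univ _)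
    _ = Fintype.card (V ≃ Fin m) := rfl

/-- the weight of a triple -/
private def wt (H T : Finset V) : ℕ := if Disjoint T H then 1 else 3

private theorem one_le_wt (H T : Finset V) : 1 ≤ wt H T := by
  unfold wt
  split_ifs <;> omega

/-- the number of orders for which the pair is new -/
private noncomputable def nu (H : Finset V) (X Y : Finset (Finset V)) (a b : V) : ℕ := by
  classical exact (univ.filter (fun π : V ≃ Fin (Fintype.card V) =>
    b ∈ newP H π X Y a \ H)).card

private theorem sum_nL (H : Finset V) (X Y : Finset (Finset V)) :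
    ∑ π : V ≃ Fin (Fintype.card V), nL H π X Y = ∑ a, ∑ b, nu H X Y a b := by
  classical
  have h1 : ∀ π : V ≃ Fin (Fintype.card V), nL H π X Y =
      ∑ a, ∑ b, if b ∈ newP H π X Y a \ H then 1 else 0 := by
    intro π
    unfold nL
    refine Finset.sum_congr rfl fun a _ => ?_
    rw [Finset.sum_ite_mem, Finset.univ_inter, Finset.sum_const, smul_eq_mul, mul_one]
  rw [Finset.sum_congr rfl fun π _ => h1 π, Finset.sum_comm]
  refine Finset.sum_congr rfl fun a _ => ?_
  rw [Finset.sum_comm]
  refine Finset.sum_congr rfl fun b _ => ?_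
  unfold nu
  rw [Finset.card_filter]

private theorem mem_new {m : ℕ} {H : Finset V} {π : V ≃ Fin m} {X Y : Finset (Finset V)}
    {a b : V} (h : b ∈ newP H π X Y a \ H) :
    a ∉ H ∧ b ∉ H ∧ a ≠ b ∧ (Cv X a b ∨ Cv Y a b) ∧ π a ≤ π b ∧
      (∀ T ∈ X, a ∈ T → b ∈ T → ∀ c ∈ T, c ∉ H → π a ≤ π c) ∧
      (∀ T ∈ Y, a ∈ T → b ∈ T → ∀ c ∈ T, c ∉ H → π a ≤ π c) := by
  classical
  rw [mem_sdiff] at h
  obtain ⟨h, hb⟩ := h
  unfold newP at h
  rw [mem_filter] at h
  obtain ⟨-, hk, hc, hX, hY⟩ := h
  have hbk : key H π b = (π b : ℕ) := by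
    unfold key
    rw [if_neg hb, zero_add]
  have ha : a ∉ H := by
    intro ha
    have : key H π a = m + (π a : ℕ) := by
      unfold key
      rw [if_pos ha]
    have h2 := (π b).isLt
    omega
  have hak : key H π a = (π a : ℕ) := by
    unfold key
    rw [if_neg ha, zero_add]
  have hne : a ≠ b := by
    rintro rfl
    exact lt_irrefl _ hk
  refine ⟨ha, hb, hne, hc, ?_, ?_, ?_⟩
  · rw [hbk, hak] at hk
    exact Fin.le_def.2 hk.le
  · intro T hT haT hbT c hcT hcH
    by_contra hlt
    rw [not_le] at hlt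
    apply hX
    refine ⟨T, ?_, haT, hbT⟩
    unfold pre
    rw [mem_filter]
    refine ⟨hT, c, hcT, ?_⟩
    have hck : key H π c = (π c : ℕ) := by
      unfold key
      rw [if_neg hcH, zero_add]
    rw [hck, hak]
    exact hlt
  · intro T hT haT hbT c hcT hcH
    by_contra hlt
    rw [not_le] at hlt
    apply hY
    refine ⟨T, ?_, haT, hbT⟩
    unfold pre
    rw [mem_filter]
    refine ⟨hT, c, hcT, ?_⟩
    have hck : key H π c = (π c : ℕ) := by
      unfold key
      rw [if_neg hcH, zero_add]
    rw [hck, hak]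
    exact hlt

/-- the pair is new for at most half of the orders -/
private theorem two_nu (H : Finset V) (X Y : Finset (Finset V)) {a b : V} (hab : a ≠ b) :
    2 * nu H X Y a b ≤ Fintype.card (V ≃ Fin (Fintype.card V)) := by
  classical
  have h := share (m := Fintype.card V) ({a, b} : Finset V) (mem_insert_self a {b})
  rw [Finset.card_pair hab] at h
  refine le_trans (Nat.mul_le_mul_left 2 ?_) h
  unfold nu
  refine Finset.card_le_card fun π hπ => ?_
  rw [mem_filter] at hπ ⊢
  obtain ⟨-, -, -, -, hle, -, -⟩ := mem_new hπ.2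
  refine ⟨mem_univ _, fun y hy => ?_⟩
  rw [mem_insert, mem_singleton] at hy
  rcases hy with rfl | rfl
  · exact le_rfl
  · exact hle

/-- a pair covered by two triples off `H` is new for at most a quarter of the orders -/
private theorem four_nu {H : Finset V} {X Y : Finset (Finset V)} {a b : V} (hab : a ≠ b)
    {T T' : Finset V} (hT : T ∈ X) (hT' : T' ∈ Y) (hTT : T ≠ T') (h3 : T.card = 3)
    (h3' : T'.card = 3) (haT : a ∈ T) (hbT : b ∈ T) (haT' : a ∈ T') (hbT' : b ∈ T')
    (hd : Disjoint T H) (hd' : Disjoint T' H) :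
    4 * nu H X Y a b ≤ Fintype.card (V ≃ Fin (Fintype.card V)) := by
  classical
  have h := share (m := Fintype.card V) (T ∪ T') (mem_union_left T' haT)
  have hcard : 4 ≤ (T ∪ T').card := by
    by_contra hlt
    have h1 : T = T ∪ T' := Finset.eq_of_subset_of_card_le subset_union_left (by omega)
    have h2 : T' = T ∪ T' := Finset.eq_of_subset_of_card_le subset_union_right (by omega)
    exact hTT (h1.trans h2.symm)
  refine le_trans (Nat.mul_le_mul hcard ?_) h
  unfold nu
  refine Finset.card_le_card fun π hπ => ?_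
  rw [mem_filter] at hπ ⊢
  obtain ⟨-, -, -, -, hle, hX, hY⟩ := mem_new hπ.2
  refine ⟨mem_univ _, fun y hy => ?_⟩
  rw [mem_union] at hy
  rcases hy with hy | hy
  · exact hX T hT haT hbT y hy (Finset.disjoint_left.1 hd hy)
  · exact hY T' hT' haT' hbT' y hy (Finset.disjoint_left.1 hd' hy)

/-- the weighted number of ordered pairs off `H` in a triple -/
private theorem wt_pairs {H T : Finset V} (h3 : T.card = 3) :
    wt H T * ((T \ H).offDiag).card ≤ 6 := by
  rw [Finset.offDiag_card]
  unfold wt
  split_ifs with hd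
  · rw [Finset.sdiff_eq_self_of_disjoint hd, h3]
  · have hlt : (T \ H).card < 3 := by
      rw [← h3]
      refine Finset.card_lt_card ⟨sdiff_subset, fun hsub => hd ?_⟩
      rw [Finset.disjoint_left]
      intro x hx
      exact (mem_sdiff.1 (hsub hx)).2
    have : (T \ H).card = 0 ∨ (T \ H).card = 1 ∨ (T \ H).card = 2 := by omega
    rcases this with h | h | h <;> rw [h] <;> norm_num

/-- the cost of a pair -/
private noncomputable def cost (H : Finset V) (X Y : Finset (Finset V)) (p : V × V) : ℕ := by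
  classical exact (∑ T ∈ X, if p ∈ (T \ H).offDiag then wt H T else 0) +
    (∑ T ∈ Y, if p ∈ (T \ H).offDiag then wt H T else 0) +
    4 * (if p.1 ≠ p.2 ∧ Bd X Y p.1 p.2 then 1 else 0)

private theorem sum_wt {H : Finset V} {X : Finset (Finset V)} (hX : Lin X) :
    (∑ p : V × V, ∑ T ∈ X, if p ∈ (T \ H).offDiag then wt H T else 0) ≤ 6 * X.card := by
  classical
  rw [Finset.sum_comm]
  calc (∑ T ∈ X, ∑ p : V × V, if p ∈ (T \ H).offDiag then wt H T else 0)
      ≤ ∑ _T ∈ X, 6 := by
        refine Finset.sum_le_sum fun T hT => ?_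
        rw [Finset.sum_ite_mem, Finset.univ_inter, Finset.sum_const, smul_eq_mul, mul_comm]
        exact wt_pairs (hX.1 T hT)
    _ = 6 * X.card := by rw [Finset.sum_const, smul_eq_mul, mul_comm]

private theorem sum_cost {s β : ℕ} {X Y : Finset (Finset V)} (hS : Str s β X Y) (H : Finset V) :
    ∑ p : V × V, cost H X Y p ≤ 6 * s + 8 * β := by
  classical
  have h1 := sum_wt (H := H) hS.linX
  have h2 := sum_wt (H := H) hS.linY
  have h3 : (∑ p : V × V, if p.1 ≠ p.2 ∧ Bd X Y p.1 p.2 then 1 else 0) = bdN X Y := by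
    unfold bdN
    rw [Finset.card_filter]
  have h4 : ∑ p : V × V, cost H X Y p =
      (∑ p : V × V, ∑ T ∈ X, if p ∈ (T \ H).offDiag then wt H T else 0) +
      (∑ p : V × V, ∑ T ∈ Y, if p ∈ (T \ H).offDiag then wt H T else 0) +
      4 * (∑ p : V × V, if p.1 ≠ p.2 ∧ Bd X Y p.1 p.2 then 1 else 0) := by
    rw [Finset.mul_sum, ← Finset.sum_add_distrib, ← Finset.sum_add_distrib]
    rfl
  have h5 := hS.bd
  have h6 := hS.card
  rw [h4, h3]
  omega

private theorem nu_cost {s β : ℕ} {X Y : Finset (Finset V)} (hS : Str s β X Y) (H : Finset V)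
    (a b : V) :
    8 * nu H X Y a b ≤ cost H X Y (a, b) * Fintype.card (V ≃ Fin (Fintype.card V)) := by
  classical
  by_cases h0 : nu H X Y a b = 0
  · rw [h0, mul_zero]
    exact Nat.zero_le _
  have hex : ∃ π : V ≃ Fin (Fintype.card V), b ∈ newP H π X Y a \ H := by
    by_contra hno
    push Not at hno
    apply h0
    unfold nu
    rw [Finset.card_eq_zero, Finset.filter_eq_empty_iff]
    intro π _
    exact hno π
  obtain ⟨π, hπ⟩ := hex
  obtain ⟨ha, hb, hab, hc, -, -, -⟩ := mem_new hπ
  have h2 := two_nu H X Y hab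
  by_cases hB : Bd X Y a b
  · have hcost : 4 ≤ cost H X Y (a, b) := by
      unfold cost
      rw [if_pos (show (a, b).1 ≠ (a, b).2 ∧ Bd X Y (a, b).1 (a, b).2 from ⟨hab, hB⟩)]
      omega
    calc 8 * nu H X Y a b = 4 * (2 * nu H X Y a b) := by ring
      _ ≤ cost H X Y (a, b) * Fintype.card (V ≃ Fin (Fintype.card V)) :=
        Nat.mul_le_mul hcost h2
  · unfold Bd at hB
    rw [not_not] at hB
    have hXc : Cv X a b := by
      rcases hc with h | h
      · exact h
      · exact hB.2 h
    have hYc : Cv Y a b := hB.1 hXc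
    obtain ⟨T, hT, haT, hbT⟩ := hXc
    obtain ⟨T', hT', haT', hbT'⟩ := hYc
    have hTT : T ≠ T' := by
      rintro rfl
      exact Finset.disjoint_left.1 hS.disj hT hT'
    have hcost : wt H T + wt H T' ≤ cost H X Y (a, b) := by
      have e1 : wt H T ≤ ∑ T ∈ X, if (a, b) ∈ (T \ H).offDiag then wt H T else 0 := by
        have hm : (a, b) ∈ (T \ H).offDiag := by
          rw [Finset.mem_offDiag]
          exact ⟨mem_sdiff.2 ⟨haT, ha⟩, mem_sdiff.2 ⟨hbT, hb⟩, hab⟩
        have := Finset.single_le_sum
          (f := fun T => if (a, b) ∈ (T \ H).offDiag then wt H T else 0)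
          (fun _ _ => Nat.zero_le _) hT
        simp only [if_pos hm] at this
        exact this
      have e2 : wt H T' ≤ ∑ T ∈ Y, if (a, b) ∈ (T \ H).offDiag then wt H T else 0 := by
        have hm : (a, b) ∈ (T' \ H).offDiag := by
          rw [Finset.mem_offDiag]
          exact ⟨mem_sdiff.2 ⟨haT', ha⟩, mem_sdiff.2 ⟨hbT', hb⟩, hab⟩
        have := Finset.single_le_sum
          (f := fun T => if (a, b) ∈ (T \ H).offDiag then wt H T else 0)
          (fun _ _ => Nat.zero_le _) hT'
        simp only [if_pos hm] at this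
        exact this
      unfold cost
      omega
    by_cases hd : Disjoint T H ∧ Disjoint T' H
    · have h4 := four_nu hab hT hT' hTT (hS.linX.1 T hT) (hS.linY.1 T' hT') haT hbT haT' hbT'
        hd.1 hd.2
      have h5 : 2 ≤ cost H X Y (a, b) := by
        have := one_le_wt H T
        have := one_le_wt H T'
        omega
      calc 8 * nu H X Y a b = 2 * (4 * nu H X Y a b) := by ring
        _ ≤ cost H X Y (a, b) * Fintype.card (V ≃ Fin (Fintype.card V)) :=
          Nat.mul_le_mul h5 h4
    · have h5 : 4 ≤ cost H X Y (a, b) := by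
        have e1 := one_le_wt H T
        have e2 := one_le_wt H T'
        rw [not_and_or] at hd
        rcases hd with hd | hd
        · have : wt H T = 3 := by
            unfold wt
            rw [if_neg hd]
          omega
        · have : wt H T' = 3 := by
            unfold wt
            rw [if_neg hd]
          omega
      calc 8 * nu H X Y a b = 4 * (2 * nu H X Y a b) := by ring
        _ ≤ cost H X Y (a, b) * Fintype.card (V ≃ Fin (Fintype.card V)) :=
          Nat.mul_le_mul h5 h2

/-- the average of the number of new points over all orders -/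
theorem avg_nL {s β : ℕ} {X Y : Finset (Finset V)} (hS : Str s β X Y) (H : Finset V) :
    4 * ∑ π : V ≃ Fin (Fintype.card V), nL H π X Y ≤
      (3 * s + 4 * β) * Fintype.card (V ≃ Fin (Fintype.card V)) := by
  rw [sum_nL]
  set M := Fintype.card (V ≃ Fin (Fintype.card V)) with hM
  have h1 : 8 * ∑ a, ∑ b, nu H X Y a b ≤ (6 * s + 8 * β) * M := by
    calc 8 * ∑ a, ∑ b, nu H X Y a b = ∑ a, ∑ b, 8 * nu H X Y a b := by
          rw [Finset.mul_sum]
          exact Finset.sum_congr rfl fun a _ => Finset.mul_sum _ _ _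
      _ ≤ ∑ a, ∑ b, cost H X Y (a, b) * M :=
          Finset.sum_le_sum fun a _ => Finset.sum_le_sum fun b _ => nu_cost hS H a b
      _ = (∑ p : V × V, cost H X Y p) * M := by
          rw [Fintype.sum_prod_type, Finset.sum_mul]
          exact Finset.sum_congr rfl fun a _ => (Finset.sum_mul _ _ _).symm
      _ ≤ (6 * s + 8 * β) * M := Nat.mul_le_mul_right M (sum_cost hS H)
  have h2 : (6 * s + 8 * β) * M = 2 * ((3 * s + 4 * β) * M) := by ring
  omega

/-- many orders have few new points -/
theorem many_orders {s β : ℕ} (hβ : 32 * β ≤ s) {X Y : Finset (Finset V)} (hS : Str s β X Y)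
    (H : Finset V) : Fintype.card (V ≃ Fin (Fintype.card V)) ≤
      10 * (univ.filter (fun π : V ≃ Fin (Fintype.card V) => 8 * nL H π X Y ≤ 7 * s)).card := by
  classical
  have havg := avg_nL hS H
  set M := Fintype.card (V ≃ Fin (Fintype.card V)) with hM
  set good := univ.filter (fun π : V ≃ Fin (Fintype.card V) => 8 * nL H π X Y ≤ 7 * s) with hg
  set bad := univ.filter (fun π : V ≃ Fin (Fintype.card V) => ¬ 8 * nL H π X Y ≤ 7 * s) with hb
  have hgb : good.card + bad.card = M := by
    rw [hg, hb, Finset.card_filter_add_card_filter_not, hM]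
    rfl
  have hbad : (7 * s + 1) * bad.card ≤ 8 * ∑ π : V ≃ Fin (Fintype.card V), nL H π X Y := by
    calc (7 * s + 1) * bad.card = ∑ _π ∈ bad, (7 * s + 1) := by
          rw [Finset.sum_const, smul_eq_mul, mul_comm]
      _ ≤ ∑ π ∈ bad, 8 * nL H π X Y := by
          refine Finset.sum_le_sum fun π hπ => ?_
          rw [hb, mem_filter] at hπ
          omega
      _ ≤ ∑ π : V ≃ Fin (Fintype.card V), 8 * nL H π X Y :=
          Finset.sum_le_sum_of_subset (subset_univ _)
      _ = 8 * ∑ π : V ≃ Fin (Fintype.card V), nL H π X Y := (Finset.mul_sum _ _ _).symm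
  have h3 : 4 * ((7 * s + 1) * bad.card) ≤ 25 * s * M := by
    have : (3 * s + 4 * β) * M * 8 ≤ 25 * s * M := by
      have : (3 * s + 4 * β) * 8 ≤ 25 * s := by omega
      calc (3 * s + 4 * β) * M * 8 = (3 * s + 4 * β) * 8 * M := by ring
        _ ≤ 25 * s * M := Nat.mul_le_mul_right M this
    omega
  rcases Nat.eq_zero_or_pos s with h0 | h0
  · subst h0
    simp only [mul_zero, zero_mul, zero_add, one_mul] at h3
    omega
  · have h4 : 28 * bad.card ≤ 25 * M := by
      have h5 : s * (28 * bad.card) ≤ s * (25 * M) := by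
        calc s * (28 * bad.card) ≤ 4 * ((7 * s + 1) * bad.card) := by ring_nf; omega
          _ ≤ 25 * s * M := h3
          _ = s * (25 * M) := by ring
      exact Nat.le_of_mul_le_mul_left h5 h0
    omega

end Pool.Agent.Lib.FA
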