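import Pool.Agent.Lib.MP_6d56f7_co_FA.Fib

/-!
# The number of systems with a given profile
-/

set_option autoImplicit false

namespace Pool.Agent.Lib.FA

open Finset

variable {V : Type} [Fintype V] [DecidableEq V]

variable {m : ℕ}

omit [Fintype V] in
private theorem cnt_key_inj (H : Finset V) (π : V ≃ Fin m) {a b : V}
    (h : key H π a = key H π b) : a = b := by
  unfold key at h
  have ha := (π a).isLt
  have hb := (π b).isLt
  apply π.injective
  apply Fin.ext
  split_ifs at h <;> omega

omit [Fintype V] in
private theorem cnt_key_lt (H : Finset V) (π : V ≃ Fin m) (a : V) : key H π a < 2 * m := by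
  unfold key
  have ha := (π a).isLt
  split_ifs <;> omega

omit [Fintype V] in
private theorem cnt_mem_pre (H : Finset V) (π : V ≃ Fin m) (k : ℕ) (X : Finset (Finset V))
    (T : Finset V) : T ∈ pre H π k X ↔ T ∈ X ∧ ∃ b ∈ T, key H π b < k := by
  unfold pre
  rw [mem_filter]

private theorem cnt_mem_fst (H : Finset V) (π : V ≃ Fin m) (a : V) (X : Finset (Finset V))
    (T : Finset V) : T ∈ fst H π a X ↔ T ∈ X ∧ a ∈ T ∧ ∀ b ∈ T, key H π a ≤ key H π b := by
  unfold fst
  rw [mem_filter]

private theorem cnt_pre_succ (H : Finset V) (π : V ≃ Fin m) (a : V) (X : Finset (Finset V)) :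
    pre H π (key H π a + 1) X = pre H π (key H π a) X ∪ fst H π a X := by
  ext T
  rw [mem_union, cnt_mem_pre, cnt_mem_pre, cnt_mem_fst]
  constructor
  · rintro ⟨hT, b, hb, hk⟩
    by_cases h : ∃ c ∈ T, key H π c < key H π a
    · exact Or.inl ⟨hT, h⟩
    · push Not at h
      have h1 := h b hb
      have h2 : b = a := cnt_key_inj H π (by omega)
      rw [h2] at hb
      exact Or.inr ⟨hT, hb, h⟩
  · rintro (⟨hT, b, hb, hk⟩ | ⟨hT, ha, _⟩)
    · exact ⟨hT, b, hb, by omega⟩
    · exact ⟨hT, a, ha, by omega⟩

omit [Fintype V] in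
private theorem cnt_pre_same (H : Finset V) (π : V ≃ Fin m) (k : ℕ) (X : Finset (Finset V))
    (hk : ∀ a, key H π a ≠ k) : pre H π (k + 1) X = pre H π k X := by
  ext T
  rw [cnt_mem_pre, cnt_mem_pre]
  constructor
  · rintro ⟨hT, b, hb, h⟩
    have := hk b
    exact ⟨hT, b, hb, by omega⟩
  · rintro ⟨hT, b, hb, h⟩
    exact ⟨hT, b, hb, by omega⟩

/-- the number of pairs of values of two functions, from the fibres -/
private theorem cnt_pair {α β γ : Type*} [DecidableEq α] [DecidableEq β] [DecidableEq γ]
    (𝒮 : Finset α) (g : α → β) (f : α → γ) {N M : ℕ} (hg : (𝒮.image g).card ≤ N)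
    (hf : ∀ y, ((𝒮.filter (fun S => g S = y)).image f).card ≤ M) :
    (𝒮.image (fun S => (g S, f S))).card ≤ M * N := by
  have h1 : (𝒮.image (fun S => (g S, f S))).card ≤
      M * ((𝒮.image (fun S => (g S, f S))).image Prod.fst).card := by
    refine card_le_mul_card_image _ M fun y _ => le_trans ?_ (hf y)
    refine card_le_card_of_injOn Prod.snd ?_ ?_
    · intro z hz
      rw [mem_coe, mem_filter, mem_image] at hz
      obtain ⟨⟨S, hS, rfl⟩, hy⟩ := hz
      exact mem_coe.2 (mem_image_of_mem f (mem_filter.2 ⟨hS, hy⟩))
    · intro z hz w hw h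
      have hz' := (mem_filter.1 (mem_coe.1 hz)).2
      have hw' := (mem_filter.1 (mem_coe.1 hw)).2
      exact Prod.ext (hz'.trans hw'.symm) h
  refine h1.trans (Nat.mul_le_mul_left _ (le_trans (le_of_eq ?_) hg))
  rw [image_image]
  rfl

/-- the number of pairs of systems with a given profile -/
theorem cnt_prof (A H : Finset V) {Q : ℕ} (hHQ : H.card ≤ Q) (π : V ≃ Fin m)
    (pr : V → ℕ × ℕ × ℕ × ℕ) (𝒮 : Finset (Finset (Finset V) × Finset (Finset V)))
    (h1 : ∀ S ∈ 𝒮, ∃ s β, Str s β S.1 S.2)
    (h2 : ∀ S ∈ 𝒮, ∀ a, (newP H π S.1 S.2 a ∪ halfP H π S.1 S.2 a).card ≤ Q)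
    (h3 : ∀ S ∈ 𝒮, ∀ a, newP H π S.1 S.2 a ⊆ A)
    (h4 : ∀ S ∈ 𝒮, ∀ a, prof H π S.1 S.2 a = pr a) :
    𝒮.card ≤ ∏ a, bnd A.card Q (pr a) := by
  classical
  have key1 : ∀ k : ℕ, (𝒮.image (fun S => (pre H π k S.1, pre H π k S.2))).card ≤
      ∏ a ∈ univ.filter (fun a => key H π a < k), bnd A.card Q (pr a) := by
    intro k
    induction k with
    | zero =>
      have h5 : (univ : Finset V).filter (fun a => key H π a < 0) = ∅ := by
        rw [filter_eq_empty_iff]
        intro a _
        omega
      rw [h5, prod_empty, card_le_one]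
      intro x hx y hy
      rw [mem_image] at hx hy
      obtain ⟨S, _, rfl⟩ := hx
      obtain ⟨S', _, rfl⟩ := hy
      have h6 : ∀ X : Finset (Finset V), pre H π 0 X = ∅ := by
        intro X
        rw [eq_empty_iff_forall_notMem]
        intro T hT
        rw [cnt_mem_pre] at hT
        obtain ⟨_, b, _, hb⟩ := hT
        omega
      rw [h6, h6, h6, h6]
    | succ k ih =>
      by_cases hk : ∃ a, key H π a = k
      · obtain ⟨a, rfl⟩ := hk
        have h5 : (univ : Finset V).filter (fun b => key H π b < key H π a + 1) =
            insert a (univ.filter (fun b => key H π b < key H π a)) := by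
          ext b
          rw [mem_insert, mem_filter, mem_filter]
          constructor
          · rintro ⟨_, hb⟩
            by_cases h : key H π b = key H π a
            · exact Or.inl (cnt_key_inj H π h)
            · exact Or.inr ⟨mem_univ _, by omega⟩
          · rintro (rfl | ⟨_, hb⟩)
            · exact ⟨mem_univ _, by omega⟩
            · exact ⟨mem_univ _, by omega⟩
        have h6 : a ∉ univ.filter (fun b => key H π b < key H π a) := by
          rw [mem_filter]
          rintro ⟨_, h⟩
          omega
        rw [h5, prod_insert h6]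
        have h7 := cnt_pair 𝒮 (fun S => (pre H π (key H π a) S.1, pre H π (key H π a) S.2))
          (fun S => (fst H π a S.1, fst H π a S.2)) (M := bnd A.card Q (pr a)) ih (by
            intro y
            refine fib A H hHQ π a (pr a) y.1 y.2 _ ?_ ?_ ?_ ?_ ?_
            · intro S hS
              exact h1 S (mem_filter.1 hS).1
            · intro S hS
              exact h2 S (mem_filter.1 hS).1 a
            · intro S hS
              exact h3 S (mem_filter.1 hS).1 a
            · intro S hS
              exact h4 S (mem_filter.1 hS).1 a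
            · intro S hS
              have h8 := (mem_filter.1 hS).2
              exact ⟨congrArg Prod.fst h8, congrArg Prod.snd h8⟩)
        refine le_trans ?_ h7
        have h9 : 𝒮.image (fun S => (pre H π (key H π a + 1) S.1, pre H π (key H π a + 1) S.2)) =
            (𝒮.image (fun S => ((pre H π (key H π a) S.1, pre H π (key H π a) S.2),
              (fst H π a S.1, fst H π a S.2)))).image
              (fun z => (z.1.1 ∪ z.2.1, z.1.2 ∪ z.2.2)) := by
          rw [image_image]
          refine image_congr ?_
          intro S _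
          simp only [Function.comp_apply, cnt_pre_succ]
        rw [h9]
        exact card_image_le
      · push Not at hk
        have h5 : (univ : Finset V).filter (fun a => key H π a < k + 1) =
            univ.filter (fun a => key H π a < k) := by
          ext b
          rw [mem_filter, mem_filter]
          have := hk b
          constructor
          · rintro ⟨_, hb⟩
            exact ⟨mem_univ _, by omega⟩
          · rintro ⟨_, hb⟩
            exact ⟨mem_univ _, by omega⟩
        rw [h5]
        refine le_trans (le_of_eq ?_) ih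
        congr 1
        refine image_congr ?_
        intro S _
        simp only [cnt_pre_same H π k _ hk]
  have h5 := key1 (2 * m)
  have h6 : (univ : Finset V).filter (fun a => key H π a < 2 * m) = univ := by
    rw [filter_eq_self]
    intro a _
    exact cnt_key_lt H π a
  rw [h6] at h5
  refine le_trans (le_of_eq ?_) h5
  symm
  refine card_image_of_injOn ?_
  have h7 : ∀ X : Finset (Finset V), (∀ T ∈ X, T.card = 3) → pre H π (2 * m) X = X := by
    intro X hX
    ext T
    rw [cnt_mem_pre]
    constructor
    · exact fun h => h.1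
    · intro hT
      have h8 : T.Nonempty := by
        rw [← card_pos, hX T hT]
        norm_num
      obtain ⟨b, hb⟩ := h8
      exact ⟨hT, b, hb, cnt_key_lt H π b⟩
  intro S hS S' hS' h
  obtain ⟨s, β, hStr⟩ := h1 S hS
  obtain ⟨s', β', hStr'⟩ := h1 S' hS'
  have e1 := congrArg Prod.fst h
  have e2 := congrArg Prod.snd h
  simp only [h7 _ hStr.linX.1, h7 _ hStr'.linX.1] at e1
  simp only [h7 _ hStr.linY.1, h7 _ hStr'.linY.1] at e2
  exact Prod.ext e1 e2

end Pool.Agent.Lib.FA
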