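import Mathlib

/-!
# Pairs of linear triple systems with a small boundary: definitions

Project FA: two different list edge-colourings of `K_{2n}` from sparse random lists are far apart.
-/

set_option autoImplicit false

namespace Pool.Agent.Lib.FA

open Finset

variable {V : Type} [Fintype V] [DecidableEq V]

/-- a linear triple system: two triples have at most one common point -/
def Lin (X : Finset (Finset V)) : Prop :=
  (∀ T ∈ X, T.card = 3) ∧ ∀ T ∈ X, ∀ T' ∈ X, T ≠ T' → (T ∩ T').card ≤ 1

/-- the pair `a`, `b` is contained in a triple of `X` -/
def Cv (X : Finset (Finset V)) (a b : V) : Prop := ∃ T ∈ X, a ∈ T ∧ b ∈ T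

/-- the pair `a`, `b` is contained in triples of exactly one of `X` and `Y` -/
def Bd (X Y : Finset (Finset V)) (a b : V) : Prop := ¬ (Cv X a b ↔ Cv Y a b)

/-- the number of ordered pairs of different points which are covered by exactly one of the
systems -/
noncomputable def bdN (X Y : Finset (Finset V)) : ℕ := by
  classical exact (univ.filter (fun p : V × V => p.1 ≠ p.2 ∧ Bd X Y p.1 p.2)).card

/-- two disjoint linear triple systems with `s` triples in total; at most `β` pairs are covered by
exactly one of them -/
structure Str (s β : ℕ) (X Y : Finset (Finset V)) : Prop where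
  linX : Lin X
  linY : Lin Y
  disj : Disjoint X Y
  card : X.card + Y.card = s
  bd : bdN X Y ≤ 2 * β

/-- the number of points which are covered together with `a` -/
noncomputable def dgr (X Y : Finset (Finset V)) (a : V) : ℕ := by
  classical exact (univ.filter (fun b => b ≠ a ∧ (Cv X a b ∨ Cv Y a b))).card

/-- the points of large degree -/
noncomputable def hiS (τ : ℕ) (X Y : Finset (Finset V)) : Finset V := by
  classical exact univ.filter (fun a => τ < dgr X Y a)

/-- the points which are covered -/
noncomputable def actS (X Y : Finset (Finset V)) : Finset V := by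
  classical exact univ.filter (fun a => ∃ T ∈ X ∪ Y, a ∈ T)

/-- the place of a point in the order: first the points off `H`, then the points of `H`, in the
order `π` -/
noncomputable def key {m : ℕ} (H : Finset V) (π : V ≃ Fin m) (a : V) : ℕ :=
  (if a ∈ H then m else 0) + (π a : ℕ)

/-- the triples of `X` with a point of key less than `k` -/
noncomputable def pre {m : ℕ} (H : Finset V) (π : V ≃ Fin m) (k : ℕ) (X : Finset (Finset V)) :
    Finset (Finset V) := by
  classical exact X.filter (fun T => ∃ b ∈ T, key H π b < k)

/-- the triples of `X` whose first point is `a` -/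
noncomputable def fst {m : ℕ} (H : Finset V) (π : V ≃ Fin m) (a : V) (X : Finset (Finset V)) :
    Finset (Finset V) := by
  classical exact X.filter (fun T => a ∈ T ∧ ∀ b ∈ T, key H π a ≤ key H π b)

/-- the later points which are covered together with `a`, but only by triples with first
point `a` -/
noncomputable def newP {m : ℕ} (H : Finset V) (π : V ≃ Fin m) (X Y : Finset (Finset V)) (a : V) :
    Finset V := by
  classical exact univ.filter (fun b => key H π a < key H π b ∧ (Cv X a b ∨ Cv Y a b) ∧
    ¬ Cv (pre H π (key H π a) X) a b ∧ ¬ Cv (pre H π (key H π a) Y) a b)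

/-- the later points which are covered together with `a` by an earlier triple of exactly one of the
systems -/
noncomputable def halfP {m : ℕ} (H : Finset V) (π : V ≃ Fin m) (X Y : Finset (Finset V)) (a : V) :
    Finset V := by
  classical exact univ.filter (fun b => key H π a < key H π b ∧
    Bd (pre H π (key H π a) X) (pre H π (key H π a) Y) a b)

/-- the number of later points `b` such that the pair `a`, `b` is covered by exactly one of the
systems -/
noncomputable def bdP {m : ℕ} (H : Finset V) (π : V ≃ Fin m) (X Y : Finset (Finset V)) (a : V) :
    ℕ := by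
  classical exact (univ.filter (fun b => key H π a < key H π b ∧ Bd X Y a b)).card

/-- the profile of a pair of systems at the point `a` -/
noncomputable def prof {m : ℕ} (H : Finset V) (π : V ≃ Fin m) (X Y : Finset (Finset V)) (a : V) :
    ℕ × ℕ × ℕ × ℕ :=
  ((newP H π X Y a \ H).card, (newP H π X Y a ∩ H).card,
    (fst H π a X).card + (fst H π a Y).card, bdP H π X Y a)

/-- the number of low new points -/
noncomputable def nL {m : ℕ} (H : Finset V) (π : V ≃ Fin m) (X Y : Finset (Finset V)) : ℕ :=
  ∑ a, (newP H π X Y a \ H).card

/-- bound for the number of continuations with a given profile -/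
def bnd (v Q : ℕ) (f : ℕ × ℕ × ℕ × ℕ) : ℕ :=
  v.choose f.1 * Q.choose f.2.1 * ((min (4 * f.2.2.1 + f.2.2.2) Q) ^ 2).choose f.2.2.1

end Pool.Agent.Lib.FA
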