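import Pool.Agent.Lib.MP_6d56f7_co_FA.Defs

/-!
# Degrees
-/

set_option autoImplicit false

namespace Pool.Agent.Lib.FA

open Finset

variable {V : Type} [Fintype V] [DecidableEq V]

variable {m s β : ℕ} {X Y : Finset (Finset V)}

private theorem Deg_hi (τ : ℕ) (a : V) : a ∈ hiS τ X Y ↔ τ < dgr X Y a := by
  unfold hiS
  simp

private theorem Deg_act (a : V) : a ∈ actS X Y ↔ ∃ T ∈ X ∪ Y, a ∈ T := by
  unfold actS
  simp

private theorem Deg_cv_act {a b : V} (h : Cv X a b ∨ Cv Y a b) : b ∈ actS X Y := by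
  rw [Deg_act]
  rcases h with ⟨T, hT, _, hb⟩ | ⟨T, hT, _, hb⟩
  · exact ⟨T, mem_union_left _ hT, hb⟩
  · exact ⟨T, mem_union_right _ hT, hb⟩

omit [Fintype V] in
private theorem Deg_pre (H : Finset V) (π : V ≃ Fin m) (k : ℕ) (Z : Finset (Finset V)) {a b : V}
    (h : Cv (pre H π k Z) a b) : Cv Z a b := by
  obtain ⟨T, hT, ha, hb⟩ := h
  refine ⟨T, ?_, ha, hb⟩
  unfold pre at hT
  exact (mem_filter.1 hT).1

private theorem Deg_uk (H : Finset V) (π : V ≃ Fin m) {a b : V}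
    (hb : b ∈ newP H π X Y a ∪ halfP H π X Y a) :
    key H π a < key H π b ∧ (Cv X a b ∨ Cv Y a b) := by
  classical
  rcases mem_union.1 hb with hb | hb
  · unfold newP at hb
    rw [mem_filter] at hb
    obtain ⟨_, h1, h2, _⟩ := hb
    exact ⟨h1, h2⟩
  · unfold halfP at hb
    rw [mem_filter] at hb
    obtain ⟨_, h1, h2⟩ := hb
    refine ⟨h1, ?_⟩
    unfold Bd at h2
    by_cases hX : Cv (pre H π (key H π a) X) a b
    · exact Or.inl (Deg_pre H π _ X hX)
    · by_cases hY : Cv (pre H π (key H π a) Y) a b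
      · exact Or.inr (Deg_pre H π _ Y hY)
      · exact absurd (iff_of_false hX hY) h2

theorem new_act (H : Finset V) (π : V ≃ Fin m) (a : V) :
    newP H π X Y a ∪ halfP H π X Y a ⊆ actS X Y := by
  intro b hb
  exact Deg_cv_act (Deg_uk H π hb).2

theorem hi_act (hS : Str s β X Y) (τ : ℕ) : hiS τ X Y ⊆ actS X Y := by
  classical
  intro a ha
  rw [Deg_hi] at ha
  have h0 : 0 < dgr X Y a := lt_of_le_of_lt (Nat.zero_le _) ha
  unfold dgr at h0
  obtain ⟨b, hb⟩ := card_pos.1 h0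
  rw [mem_filter] at hb
  obtain ⟨_, _, hb⟩ := hb
  rw [Deg_act]
  rcases hb with ⟨T, hT, ha, _⟩ | ⟨T, hT, ha, _⟩
  · exact ⟨T, mem_union_left _ hT, ha⟩
  · exact ⟨T, mem_union_right _ hT, ha⟩

private theorem Deg_three (hS : Str s β X Y) {T : Finset V} (hT : T ∈ X ∪ Y) : T.card = 3 := by
  rcases mem_union.1 hT with h | h
  · exact hS.linX.1 T h
  · exact hS.linY.1 T h

private theorem Deg_sum (hS : Str s β X Y) :
    ∑ a : V, ((X ∪ Y).filter (fun T => a ∈ T)).card = 3 * s := by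
  have h1 : ∀ a : V, ((X ∪ Y).filter (fun T => a ∈ T)).card =
      ∑ T ∈ X ∪ Y, if a ∈ T then 1 else 0 := fun a => card_filter _ _
  rw [sum_congr rfl fun a _ => h1 a, sum_comm]
  have h2 : ∀ T ∈ X ∪ Y, (∑ a : V, if a ∈ T then 1 else 0) = 3 := by
    intro T hT
    rw [← card_filter, ← Deg_three hS hT]
    congr 1
    ext a
    simp
  rw [sum_congr rfl h2, sum_const, card_union_of_disjoint hS.disj, hS.card, smul_eq_mul, mul_comm]

private theorem Deg_dgr_le (hS : Str s β X Y) (a : V) :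
    dgr X Y a ≤ 2 * ((X ∪ Y).filter (fun T => a ∈ T)).card := by
  classical
  unfold dgr
  refine le_trans (card_le_card (t := ((X ∪ Y).filter (fun T => a ∈ T)).biUnion
    (fun T => T.erase a)) ?_) ?_
  · intro b hb
    rw [mem_filter] at hb
    obtain ⟨_, hba, hb⟩ := hb
    rw [mem_biUnion]
    rcases hb with ⟨T, hT, ha, hb⟩ | ⟨T, hT, ha, hb⟩
    · exact ⟨T, mem_filter.2 ⟨mem_union_left _ hT, ha⟩, mem_erase.2 ⟨hba, hb⟩⟩
    · exact ⟨T, mem_filter.2 ⟨mem_union_right _ hT, ha⟩, mem_erase.2 ⟨hba, hb⟩⟩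
  · refine le_trans card_biUnion_le ?_
    rw [mul_comm, ← smul_eq_mul, ← sum_const]
    refine sum_le_sum fun T hT => ?_
    obtain ⟨hT, ha⟩ := mem_filter.1 hT
    rw [card_erase_of_mem ha, Deg_three hS hT]

/-- few points have large degree -/
theorem hi_card (hS : Str s β X Y) (τ : ℕ) : τ * (hiS τ X Y).card ≤ 6 * s := by
  have h1 : τ * (hiS τ X Y).card ≤ ∑ a ∈ hiS τ X Y, dgr X Y a := by
    rw [mul_comm, ← smul_eq_mul, ← sum_const]
    exact sum_le_sum fun a ha => ((Deg_hi τ a).1 ha).le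
  have h2 : ∑ a ∈ hiS τ X Y, dgr X Y a ≤ ∑ a : V, dgr X Y a :=
    sum_le_sum_of_subset (subset_univ _)
  have h3 : ∑ a : V, dgr X Y a ≤ ∑ a : V, 2 * ((X ∪ Y).filter (fun T => a ∈ T)).card :=
    sum_le_sum fun a _ => Deg_dgr_le hS a
  rw [← mul_sum, Deg_sum hS] at h3
  omega

theorem loc_Q {τ Q : ℕ} (hτ : τ ≤ Q) (hH : (hiS τ X Y).card ≤ Q) (π : V ≃ Fin m) (a : V) :
    (newP (hiS τ X Y) π X Y a ∪ halfP (hiS τ X Y) π X Y a).card ≤ Q := by
  classical
  by_cases ha : a ∈ hiS τ X Y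
  · refine le_trans (card_le_card ?_) hH
    intro b hb
    obtain ⟨h1, _⟩ := Deg_uk _ π hb
    by_contra hbH
    unfold key at h1
    rw [if_pos ha, if_neg hbH] at h1
    have h2 := (π b).2
    omega
  · have h0 : dgr X Y a ≤ τ := not_lt.1 fun h => ha ((Deg_hi τ a).2 h)
    unfold dgr at h0
    refine le_trans (le_trans (card_le_card ?_) h0) hτ
    intro b hb
    obtain ⟨h1, h2⟩ := Deg_uk _ π hb
    rw [mem_filter]
    refine ⟨mem_univ _, ?_, h2⟩
    rintro rfl
    exact lt_irrefl _ h1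

omit [Fintype V] in
private theorem Deg_two {X Y : Finset (Finset V)} (hX : ∀ T ∈ X, T.card = 3)
    (hY : ∀ T ∈ Y, T.card = 3) (hd : Disjoint X Y) {a : V}
    (hab : ∀ b, b ≠ a → (Cv X a b ↔ Cv Y a b)) {T : Finset V} (hT : T ∈ X) (ha : a ∈ T) :
    2 ≤ (X.filter (fun T => a ∈ T)).card ∧ ∃ T' ∈ Y, a ∈ T' := by
  have hb : ∃ b ∈ T, b ≠ a := by
    have h1 : 1 < T.card := by rw [hX T hT]; omega
    obtain ⟨b, hb, hba⟩ := exists_mem_ne h1 a
    exact ⟨b, hb, hba⟩
  obtain ⟨b, hbT, hba⟩ := hb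
  obtain ⟨T', hT', ha', hb'⟩ := (hab b hba).1 ⟨T, hT, ha, hbT⟩
  refine ⟨?_, T', hT', ha'⟩
  have hne : ¬ T' ⊆ T := by
    intro h
    have h2 := eq_of_subset_of_card_le h (by rw [hX T hT, hY T' hT'])
    rw [h2] at hT'
    exact disjoint_left.1 hd hT hT'
  obtain ⟨d, hd1, hd2⟩ := not_subset.1 hne
  have hda : d ≠ a := by
    rintro rfl
    exact hd2 ha
  obtain ⟨T'', hT'', ha'', hd''⟩ := (hab d hda).2 ⟨T', hT', ha', hd1⟩
  have hne2 : T ≠ T'' := by
    rintro rfl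
    exact hd2 hd''
  have h3 : ({T, T''} : Finset (Finset V)) ⊆ X.filter (fun T => a ∈ T) := by
    intro U hU
    rcases mem_insert.1 hU with h | h
    · rw [h]
      exact mem_filter.2 ⟨hT, ha⟩
    · rw [mem_singleton.1 h]
      exact mem_filter.2 ⟨hT'', ha''⟩
  have h4 := card_le_card h3
  rwa [card_pair hne2] at h4

/-- most active points are in at least four triples -/
theorem act_card (hS : Str s β X Y) : 4 * (actS X Y).card ≤ 3 * s + 8 * β := by
  classical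
  obtain ⟨D, hD⟩ : ∃ D : Finset V, ∀ a, a ∈ D ↔ ∃ b, a ≠ b ∧ Bd X Y a b :=
    ⟨univ.filter (fun a => ∃ b, a ≠ b ∧ Bd X Y a b), fun a => by simp⟩
  have hDc : D.card ≤ 2 * β := by
    refine le_trans ?_ hS.bd
    choose f hf using fun a : D => (hD a.1).1 a.2
    unfold bdN
    have h1 : D.card = (D.attach).card := (card_attach).symm
    rw [h1]
    refine card_le_card_of_injOn (fun a => ((a : V), f a)) ?_ ?_
    · intro a _
      exact mem_coe.2 (mem_filter.2 ⟨mem_univ _, hf a⟩)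
    · intro a _ b _ h
      exact Subtype.ext (Prod.ext_iff.1 h).1
  have h4 : ∀ a ∈ actS X Y \ D, 4 ≤ ((X ∪ Y).filter (fun T => a ∈ T)).card := by
    intro a ha
    obtain ⟨ha1, ha2⟩ := mem_sdiff.1 ha
    have hab : ∀ b, b ≠ a → (Cv X a b ↔ Cv Y a b) := by
      intro b hb
      by_contra h
      exact ha2 ((hD a).2 ⟨b, hb.symm, h⟩)
    have hab' : ∀ b, b ≠ a → (Cv Y a b ↔ Cv X a b) := fun b hb => (hab b hb).symm
    have hX := hS.linX.1
    have hY := hS.linY.1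
    have key : 2 ≤ (X.filter (fun T => a ∈ T)).card ∧ 2 ≤ (Y.filter (fun T => a ∈ T)).card := by
      obtain ⟨T, hT, haT⟩ := (Deg_act a).1 ha1
      rcases mem_union.1 hT with hT | hT
      · obtain ⟨h1, T', hT', haT'⟩ := Deg_two hX hY hS.disj hab hT haT
        exact ⟨h1, (Deg_two hY hX hS.disj.symm hab' hT' haT').1⟩
      · obtain ⟨h1, T', hT', haT'⟩ := Deg_two hY hX hS.disj.symm hab' hT haT
        exact ⟨(Deg_two hX hY hS.disj hab hT' haT').1, h1⟩
    rw [filter_union, card_union_of_disjoint (disjoint_filter_filter hS.disj)]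
    omega
  have h5 : 4 * (actS X Y \ D).card ≤ 3 * s := by
    rw [← Deg_sum hS, mul_comm, ← smul_eq_mul, ← sum_const]
    exact le_trans (sum_le_sum h4) (sum_le_sum_of_subset (subset_univ _))
  have h6 : (actS X Y).card ≤ (actS X Y \ D).card + D.card := by
    have h7 := card_le_card_sdiff_add_card (s := actS X Y) (t := D)
    exact h7
  omega

end Pool.Agent.Lib.FA
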