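import Pool.Agent.Lib.MP_6d56f7_co_FR.Stars
import Pool.Agent.Lib.MP_6d56f7_co_FA.Defs

/-!
# Partial colourings as linear triple systems: definitions
-/

set_option autoImplicit false

namespace Pool.Agent.Lib.FA

open Finset Pool.Agent.Lib.FR

variable {n : ℕ}

/-- a partial proper edge-colouring as a set of pairs: every edge has at most one colour, and every
vertex has at most one edge of every colour -/
def PC (A : Finset (J n)) : Prop :=
  ∀ a : El n, ∀ T ∈ A, ∀ T' ∈ A, T ∈ st n a → T' ∈ st n a → T = T'

/-- the element `a` is covered by `A` -/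
def CvE (A : Finset (J n)) (a : El n) : Prop := ∃ T ∈ A, T ∈ st n a

/-- the number of elements which are covered by exactly one of `A` and `B` -/
noncomputable def bdE (A B : Finset (J n)) : ℕ := by
  classical exact (univ.filter (fun a : El n => ¬ (CvE A a ↔ CvE B a))).card

/-- the variables: vertices and colours -/
abbrev Va (n : ℕ) : Type := Fin (2 * n) ⊕ Fin (2 * n - 1)

/-- the triple of a pair (colour, edge) -/
def tri (T : J n) : Finset (Va n) :=
  (univ.filter (fun v : Fin (2 * n) => v ∈ T.2.1)).image Sum.inl ∪ {Sum.inr T.1}

end Pool.Agent.Lib.FA
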