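import Pool.Agent.Lib.MP_6d56f7_co_FA.Defs

/-!
# Local inequalities
-/

set_option autoImplicit false

namespace Pool.Agent.Lib.FA

open Finset

variable {V : Type} [Fintype V] [DecidableEq V]

variable {m s β : ℕ} {X Y : Finset (Finset V)}

omit [Fintype V] in
private theorem key_inj {m : ℕ} (H : Finset V) (π : V ≃ Fin m) {a b : V}
    (h : key H π a = key H π b) : a = b := by
  unfold key at h
  have ha := (π a).isLt
  have hb := (π b).isLt
  apply π.injective
  apply Fin.ext
  split_ifs at h <;> omega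

private theorem mem_fst' {m : ℕ} {H : Finset V} {π : V ≃ Fin m} {a : V} {X : Finset (Finset V)}
    {T : Finset V} : T ∈ fst H π a X ↔ T ∈ X ∧ a ∈ T ∧ ∀ b ∈ T, key H π a ≤ key H π b := by
  unfold fst
  exact Finset.mem_filter

omit [Fintype V] in
private theorem mem_pre' {m : ℕ} {H : Finset V} {π : V ≃ Fin m} {k : ℕ} {X : Finset (Finset V)}
    {T : Finset V} : T ∈ pre H π k X ↔ T ∈ X ∧ ∃ b ∈ T, key H π b < k := by
  unfold pre
  exact Finset.mem_filter

private theorem mem_newP' {m : ℕ} {H : Finset V} {π : V ≃ Fin m} {X Y : Finset (Finset V)}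
    {a b : V} : b ∈ newP H π X Y a ↔ key H π a < key H π b ∧ (Cv X a b ∨ Cv Y a b) ∧
    ¬ Cv (pre H π (key H π a) X) a b ∧ ¬ Cv (pre H π (key H π a) Y) a b := by
  unfold newP
  simp only [Finset.mem_filter, Finset.mem_univ, true_and]

private theorem mem_halfP' {m : ℕ} {H : Finset V} {π : V ≃ Fin m} {X Y : Finset (Finset V)}
    {a b : V} : b ∈ halfP H π X Y a ↔ key H π a < key H π b ∧
    Bd (pre H π (key H π a) X) (pre H π (key H π a) Y) a b := by
  unfold halfP
  simp only [Finset.mem_filter, Finset.mem_univ, true_and]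

/-- a covered pair which is not covered by an earlier triple is covered by a new one -/
private theorem cv_new {m : ℕ} {H : Finset V} {π : V ≃ Fin m} {X : Finset (Finset V)} {a b : V}
    (h : Cv X a b) (hn : ¬ Cv (pre H π (key H π a) X) a b) :
    ∃ T ∈ fst H π a X, b ∈ T := by
  obtain ⟨T, hT, ha, hb⟩ := h
  refine ⟨T, mem_fst'.2 ⟨hT, ha, ?_⟩, hb⟩
  intro c hc
  by_contra hlt
  exact hn ⟨T, mem_pre'.2 ⟨hT, c, hc, not_le.1 hlt⟩, ha, hb⟩

/-- the sum over `b` in a set of later points of the number of new triples at `b` -/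
private theorem sum_inc {m : ℕ} {H : Finset V} {π : V ≃ Fin m} {X : Finset (Finset V)} {a : V}
    (hX : Lin X) (U : Finset V) (hU : a ∉ U) :
    ∑ b ∈ U, ((fst H π a X).filter (fun T => b ∈ T)).card ≤ 2 * (fst H π a X).card := by
  have h1 : ∑ b ∈ U, ((fst H π a X).filter (fun T => b ∈ T)).card =
      ∑ T ∈ fst H π a X, (U.filter (fun b => b ∈ T)).card := by
    simp only [Finset.card_filter]
    exact Finset.sum_comm
  rw [h1]
  have h2 : ∀ T ∈ fst H π a X, (U.filter (fun b => b ∈ T)).card ≤ 2 := by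
    intro T hT
    obtain ⟨hTX, haT, -⟩ := mem_fst'.1 hT
    have h3 : U.filter (fun b => b ∈ T) ⊆ T.erase a := by
      intro b hb
      rw [Finset.mem_filter] at hb
      rw [Finset.mem_erase]
      refine ⟨?_, hb.2⟩
      rintro rfl
      exact hU hb.1
    have h4 := Finset.card_le_card h3
    rw [Finset.card_erase_of_mem haT, hX.1 T hTX] at h4
    exact h4
  calc ∑ T ∈ fst H π a X, (U.filter (fun b => b ∈ T)).card
      ≤ ∑ T ∈ fst H π a X, 2 := Finset.sum_le_sum h2
    _ = 2 * (fst H π a X).card := by rw [Finset.sum_const, smul_eq_mul, mul_comm]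

private theorem inc_pos {m : ℕ} {H : Finset V} {π : V ≃ Fin m} {X : Finset (Finset V)} {a b : V}
    (h : ∃ T ∈ fst H π a X, b ∈ T) : 1 ≤ ((fst H π a X).filter (fun T => b ∈ T)).card := by
  obtain ⟨T, hT, hb⟩ := h
  exact Finset.card_pos.2 ⟨T, Finset.mem_filter.2 ⟨hT, hb⟩⟩

/-- the later boundary points -/
private theorem bd_sub {m : ℕ} {H : Finset V} {π : V ≃ Fin m} {X Y : Finset (Finset V)} {a : V}
    (U : Finset V) (hU : ∀ b ∈ U, key H π a < key H π b) [DecidablePred (fun b => Bd X Y a b)] :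
    (U.filter (fun b => Bd X Y a b)).card ≤ bdP H π X Y a := by
  unfold bdP
  apply Finset.card_le_card
  intro b hb
  rw [Finset.mem_filter] at hb
  simp only [Finset.mem_filter, Finset.mem_univ, true_and]
  exact ⟨hU b hb.1, hb.2⟩

private theorem sum_fst_one {m : ℕ} (H : Finset V) (π : V ≃ Fin m) {X : Finset (Finset V)}
    (hX : Lin X) : ∑ a, (fst H π a X).card = X.card := by
  classical
  have h1 : ∑ a, (fst H π a X).card = ∑ a, ∑ T ∈ X, if T ∈ fst H π a X then 1 else 0 := by
    refine Finset.sum_congr rfl fun a _ => ?_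
    rw [← Finset.card_filter]
    congr 1
    ext T
    rw [Finset.mem_filter]
    exact ⟨fun h => ⟨(mem_fst'.1 h).1, h⟩, fun h => h.2⟩
  rw [h1, Finset.sum_comm, Finset.card_eq_sum_ones]
  refine Finset.sum_congr rfl fun T hT => ?_
  have hne : T.Nonempty := by
    rw [← Finset.card_pos, hX.1 T hT]
    norm_num
  obtain ⟨a, haT, hmin⟩ := Finset.exists_min_image T (fun b => key H π b) hne
  rw [Finset.sum_eq_single a]
  · exact if_pos (mem_fst'.2 ⟨hT, haT, hmin⟩)
  · intro b _ hba
    apply if_neg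
    intro h
    obtain ⟨-, hbT, hb⟩ := mem_fst'.1 h
    exact hba (key_inj H π (le_antisymm (hb a haT) (hmin b hbT)))
  · intro h
    exact absurd (Finset.mem_univ a) h

private theorem fst_sub_one {m : ℕ} (H : Finset V) (π : V ≃ Fin m) {X : Finset (Finset V)}
    (hX : Lin X) (a : V) : ∀ T ∈ fst H π a X, ∀ b ∈ T, b ≠ a →
      key H π a < key H π b ∧ Cv X a b ∧ ¬ Cv (pre H π (key H π a) X) a b := by
  intro T hT b hb hba
  obtain ⟨hTX, haT, hmin⟩ := mem_fst'.1 hT
  refine ⟨lt_of_le_of_ne (hmin b hb) fun h => hba (key_inj H π h.symm), ⟨T, hTX, haT, hb⟩, ?_⟩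
  rintro ⟨T', hT', haT', hbT'⟩
  obtain ⟨hT'X, c, hcT', hc⟩ := mem_pre'.1 hT'
  have hne : T ≠ T' := by
    rintro rfl
    exact absurd (hmin c hcT') (not_le.2 hc)
  have h1 := hX.2 T hTX T' hT'X hne
  have h2 : ({a, b} : Finset V) ⊆ T ∩ T' := by
    intro x hx
    rw [Finset.mem_insert, Finset.mem_singleton] at hx
    rw [Finset.mem_inter]
    rcases hx with rfl | rfl
    · exact ⟨haT, haT'⟩
    · exact ⟨hb, hbT'⟩
  have h3 := Finset.card_le_card h2
  rw [Finset.card_pair hba.symm] at h3
  omega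

theorem loc_new (hS : Str s β X Y) (H : Finset V) (π : V ≃ Fin m) (a : V) :
    (newP H π X Y a).card ≤
      ((fst H π a X).card + (fst H π a Y).card) + bdP H π X Y a := by
  classical
  have hgt : ∀ b ∈ newP H π X Y a, key H π a < key H π b := fun b hb => (mem_newP'.1 hb).1
  have haU : a ∉ newP H π X Y a := fun h => lt_irrefl _ (hgt a h)
  have h1 := sum_inc (H := H) (π := π) hS.linX (newP H π X Y a) haU
  have h2 := sum_inc (H := H) (π := π) hS.linY (newP H π X Y a) haU
  have h3 := bd_sub (H := H) (π := π) (X := X) (Y := Y) (a := a) (newP H π X Y a) hgt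
  have h4 : ∑ b ∈ newP H π X Y a, 2 ≤ ∑ b ∈ newP H π X Y a,
      (((fst H π a X).filter (fun T => b ∈ T)).card +
        ((fst H π a Y).filter (fun T => b ∈ T)).card + if Bd X Y a b then 1 else 0) := by
    refine Finset.sum_le_sum fun b hb => ?_
    obtain ⟨-, hcv, hnX, hnY⟩ := mem_newP'.1 hb
    by_cases hbd : Bd X Y a b
    · rw [if_pos hbd]
      rcases hcv with hcv | hcv
      · have := inc_pos (cv_new hcv hnX)
        omega
      · have := inc_pos (cv_new hcv hnY)
        omega
    · rw [if_neg hbd]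
      have hiff : Cv X a b ↔ Cv Y a b := not_not.1 hbd
      have hcX : Cv X a b := by
        rcases hcv with hcv | hcv
        · exact hcv
        · exact hiff.2 hcv
      have h5 := inc_pos (cv_new hcX hnX)
      have h6 := inc_pos (cv_new (hiff.1 hcX) hnY)
      omega
  rw [Finset.sum_add_distrib, Finset.sum_add_distrib, Finset.sum_const, smul_eq_mul,
    ← Finset.card_filter] at h4
  omega

theorem loc_new2 (hS : Str s β X Y) (H : Finset V) (π : V ≃ Fin m) (a : V) :
    (newP H π X Y a).card ≤ 2 * ((fst H π a X).card + (fst H π a Y).card) := by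
  classical
  have hgt : ∀ b ∈ newP H π X Y a, key H π a < key H π b := fun b hb => (mem_newP'.1 hb).1
  have haU : a ∉ newP H π X Y a := fun h => lt_irrefl _ (hgt a h)
  have h1 := sum_inc (H := H) (π := π) hS.linX (newP H π X Y a) haU
  have h2 := sum_inc (H := H) (π := π) hS.linY (newP H π X Y a) haU
  have h4 : ∑ b ∈ newP H π X Y a, 1 ≤ ∑ b ∈ newP H π X Y a,
      (((fst H π a X).filter (fun T => b ∈ T)).card +
        ((fst H π a Y).filter (fun T => b ∈ T)).card) := by
    refine Finset.sum_le_sum fun b hb => ?_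
    obtain ⟨-, hcv, hnX, hnY⟩ := mem_newP'.1 hb
    rcases hcv with hcv | hcv
    · have := inc_pos (cv_new hcv hnX)
      omega
    · have := inc_pos (cv_new hcv hnY)
      omega
  rw [Finset.sum_add_distrib, Finset.sum_const, smul_eq_mul] at h4
  omega

theorem loc_half (hS : Str s β X Y) (H : Finset V) (π : V ≃ Fin m) (a : V) :
    (halfP H π X Y a).card ≤
      2 * ((fst H π a X).card + (fst H π a Y).card) + bdP H π X Y a := by
  classical
  have hgt : ∀ b ∈ halfP H π X Y a, key H π a < key H π b := fun b hb => (mem_halfP'.1 hb).1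
  have haU : a ∉ halfP H π X Y a := fun h => lt_irrefl _ (hgt a h)
  have h1 := sum_inc (H := H) (π := π) hS.linX (halfP H π X Y a) haU
  have h2 := sum_inc (H := H) (π := π) hS.linY (halfP H π X Y a) haU
  have h3 := bd_sub (H := H) (π := π) (X := X) (Y := Y) (a := a) (halfP H π X Y a) hgt
  have h4 : ∑ b ∈ halfP H π X Y a, 1 ≤ ∑ b ∈ halfP H π X Y a,
      (((fst H π a X).filter (fun T => b ∈ T)).card +
        ((fst H π a Y).filter (fun T => b ∈ T)).card + if Bd X Y a b then 1 else 0) := by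
    refine Finset.sum_le_sum fun b hb => ?_
    obtain ⟨-, hhalf⟩ := mem_halfP'.1 hb
    by_cases hbd : Bd X Y a b
    · rw [if_pos hbd]
      omega
    · rw [if_neg hbd]
      have hiff : Cv X a b ↔ Cv Y a b := not_not.1 hbd
      by_cases hpX : Cv (pre H π (key H π a) X) a b
      · have hpY : ¬ Cv (pre H π (key H π a) Y) a b := fun h => hhalf ⟨fun _ => h, fun _ => hpX⟩
        have hcX : Cv X a b := by
          obtain ⟨T, hT, haT, hbT⟩ := hpX
          exact ⟨T, (mem_pre'.1 hT).1, haT, hbT⟩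
        have h5 := inc_pos (cv_new (hiff.1 hcX) hpY)
        omega
      · have hpY : Cv (pre H π (key H π a) Y) a b := by
          by_contra h
          exact hhalf ⟨fun h' => absurd h' hpX, fun h' => absurd h' h⟩
        have hcY : Cv Y a b := by
          obtain ⟨T, hT, haT, hbT⟩ := hpY
          exact ⟨T, (mem_pre'.1 hT).1, haT, hbT⟩
        have h5 := inc_pos (cv_new (hiff.2 hcY) hpX)
        omega
  rw [Finset.sum_add_distrib, Finset.sum_add_distrib, Finset.sum_const, smul_eq_mul,
    ← Finset.card_filter] at h4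
  omega

theorem sum_fst (hS : Str s β X Y) (H : Finset V) (π : V ≃ Fin m) :
    ∑ a, ((fst H π a X).card + (fst H π a Y).card) = s := by
  rw [Finset.sum_add_distrib, sum_fst_one H π hS.linX, sum_fst_one H π hS.linY, hS.card]

theorem sum_bd (hS : Str s β X Y) (H : Finset V) (π : V ≃ Fin m) :
    ∑ a, bdP H π X Y a ≤ β := by
  classical
  have hsymm : ∀ a b, Bd X Y a b → Bd X Y b a := by
    intro a b h
    have hc : ∀ Z : Finset (Finset V), Cv Z a b ↔ Cv Z b a := fun Z =>
      ⟨fun ⟨T, hT, ha, hb⟩ => ⟨T, hT, hb, ha⟩, fun ⟨T, hT, hb, ha⟩ => ⟨T, hT, ha, hb⟩⟩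
    unfold Bd at h ⊢
    rw [← hc X, ← hc Y]
    exact h
  -- the pairs `(a, b)` with `a` before `b`
  obtain ⟨A, hA⟩ : ∃ A : Finset (V × V), A =
      univ.filter (fun p : V × V => key H π p.1 < key H π p.2 ∧ Bd X Y p.1 p.2) := ⟨_, rfl⟩
  have hsum : ∑ a, bdP H π X Y a = A.card := by
    have h1 : ∀ a, bdP H π X Y a = ∑ b, if key H π a < key H π b ∧ Bd X Y a b then 1 else 0 := by
      intro a
      unfold bdP
      rw [Finset.card_filter]
    rw [hA, Finset.card_filter, Finset.univ_product_univ.symm, Finset.sum_product]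
    exact Finset.sum_congr rfl fun a _ => h1 a
  have hB : (A.map ⟨Prod.swap, Prod.swap_injective⟩).card = A.card := Finset.card_map _
  have hdis : Disjoint A (A.map ⟨Prod.swap, Prod.swap_injective⟩) := by
    rw [Finset.disjoint_left]
    rintro ⟨a, b⟩ h1 h2
    rw [Finset.mem_map] at h2
    obtain ⟨⟨c, d⟩, h3, h4⟩ := h2
    rw [hA, Finset.mem_filter] at h1 h3
    have h5 : d = a ∧ c = b := by
      have h6 : Prod.swap (c, d) = (a, b) := h4
      exact Prod.mk.inj h6
    obtain ⟨rfl, rfl⟩ := h5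
    exact absurd h1.2.1 (not_lt.2 h3.2.1.le)
  have hsub : A ∪ A.map ⟨Prod.swap, Prod.swap_injective⟩ ⊆
      univ.filter (fun p : V × V => p.1 ≠ p.2 ∧ Bd X Y p.1 p.2) := by
    rintro ⟨a, b⟩ h
    rw [Finset.mem_union, Finset.mem_map] at h
    rw [Finset.mem_filter]
    refine ⟨Finset.mem_univ _, ?_⟩
    rcases h with h | ⟨⟨c, d⟩, h3, h4⟩
    · rw [hA, Finset.mem_filter] at h
      refine ⟨?_, h.2.2⟩
      rintro h5
      have h6 : a = b := h5
      have h7 : key H π a < key H π b := h.2.1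
      rw [h6] at h7
      exact lt_irrefl _ h7
    · rw [hA, Finset.mem_filter] at h3
      have h5 : d = a ∧ c = b := by
        have h6 : Prod.swap (c, d) = (a, b) := h4
        exact Prod.mk.inj h6
      obtain ⟨rfl, rfl⟩ := h5
      refine ⟨?_, hsymm _ _ h3.2.2⟩
      intro h5
      have h6 : d = c := h5
      have h7 : key H π c < key H π d := h3.2.1
      rw [h6] at h7
      exact lt_irrefl _ h7
  have hle := Finset.card_le_card hsub
  rw [Finset.card_union_of_disjoint hdis, hB] at hle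
  have hbd := hS.bd
  unfold bdN at hbd
  have hcc : (univ.filter (fun p : V × V => p.1 ≠ p.2 ∧ Bd X Y p.1 p.2)).card ≤ 2 * β := by
    exact hbd
  rw [hsum]
  omega

/-- the other points of the new triples are new or half known -/
theorem fst_sub (hS : Str s β X Y) (H : Finset V) (π : V ≃ Fin m) (a : V) :
    (∀ T ∈ fst H π a X, ∀ b ∈ T, b ≠ a → b ∈ newP H π X Y a ∪ halfP H π X Y a) ∧
    ∀ T ∈ fst H π a Y, ∀ b ∈ T, b ≠ a → b ∈ newP H π X Y a ∪ halfP H π X Y a := by
  constructor
  · intro T hT b hb hba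
    obtain ⟨h1, h2, h3⟩ := fst_sub_one H π hS.linX a T hT b hb hba
    rw [Finset.mem_union]
    by_cases hY : Cv (pre H π (key H π a) Y) a b
    · right
      exact mem_halfP'.2 ⟨h1, fun h => h3 (h.2 hY)⟩
    · left
      exact mem_newP'.2 ⟨h1, Or.inl h2, h3, hY⟩
  · intro T hT b hb hba
    obtain ⟨h1, h2, h3⟩ := fst_sub_one H π hS.linY a T hT b hb hba
    rw [Finset.mem_union]
    by_cases hX : Cv (pre H π (key H π a) X) a b
    · right
      exact mem_halfP'.2 ⟨h1, fun h => h3 (h.1 hX)⟩
    · left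
      exact mem_newP'.2 ⟨h1, Or.inr h2, hX, h3⟩

end Pool.Agent.Lib.FA
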