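import Pool.Agent.Lib.MP_6d56f7_co_FA.Deg
import Pool.Agent.Lib.MP_6d56f7_co_FA.Loc

/-!
# Numerical bounds for the number of continuations
-/

set_option autoImplicit false

namespace Pool.Agent.Lib.FA

open Finset

variable {V : Type} [Fintype V] [DecidableEq V]

private theorem pow_fact_le (R j : ℕ) : (R : ℝ) ^ j / (j.factorial : ℝ) ≤ Real.exp R :=
  Real.pow_div_factorial_le_exp (R : ℝ) (Nat.cast_nonneg R) j

private theorem two_fact (a b : ℕ) :
    1 / ((a.factorial : ℝ) * (b.factorial : ℝ)) ≤ 2 ^ (a + b) / ((a + b).factorial : ℝ) := by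
  have h1 : ((a + b).choose a : ℝ) ≤ 2 ^ (a + b) := by
    have := Nat.choose_le_two_pow (a + b) a
    exact_mod_cast this
  have h2 : ((a + b).choose a : ℝ) * (a.factorial : ℝ) * (b.factorial : ℝ) =
      ((a + b).factorial : ℝ) := by
    have := Nat.add_choose_mul_factorial_mul_factorial a b
    rw [← Nat.choose_symm_add] at this
    exact_mod_cast this
  have ha : (0 : ℝ) < a.factorial := by exact_mod_cast Nat.factorial_pos a
  have hb : (0 : ℝ) < b.factorial := by exact_mod_cast Nat.factorial_pos b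
  have hab : (0 : ℝ) < (a + b).factorial := by exact_mod_cast Nat.factorial_pos (a + b)
  rw [div_le_div_iff₀ (by positivity) hab, ← h2, one_mul]
  nlinarith [mul_le_mul_of_nonneg_right h1 (mul_pos ha hb).le]

private theorem exp_num (h b : ℕ) :
    Real.exp ((4 * h + b : ℕ) : ℝ) * Real.exp ((4 * h + b : ℕ) : ℝ) * 4 ^ h ≤
      12000 ^ (h + b) := by
  have he : Real.exp 1 < 2.7182818286 := Real.exp_one_lt_d9
  have hp : (0 : ℝ) < Real.exp 1 := Real.exp_pos 1
  have h8 : Real.exp 1 ^ 8 * 4 ≤ 12000 := by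
    have : Real.exp 1 ^ 8 ≤ 2.7182818286 ^ 8 := pow_le_pow_left₀ hp.le he.le 8
    have h3 : (2.7182818286 : ℝ) ^ 8 * 4 ≤ 12000 := by norm_num
    linarith
  have h2 : Real.exp 1 ^ 2 ≤ 12000 := by
    have : Real.exp 1 ^ 2 ≤ 2.7182818286 ^ 2 := pow_le_pow_left₀ hp.le he.le 2
    have h3 : (2.7182818286 : ℝ) ^ 2 ≤ 12000 := by norm_num
    linarith
  have h0 : Real.exp ((4 * h + b : ℕ) : ℝ) = Real.exp 1 ^ (4 * h + b) := by
    rw [← Real.exp_nat_mul, mul_one]
  rw [h0]
  calc Real.exp 1 ^ (4 * h + b) * Real.exp 1 ^ (4 * h + b) * 4 ^ h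
      = (Real.exp 1 ^ 8 * 4) ^ h * (Real.exp 1 ^ 2) ^ b := by
        rw [mul_pow, ← pow_mul, ← pow_mul]; ring
    _ ≤ 12000 ^ h * 12000 ^ b := by
        apply mul_le_mul
        · exact pow_le_pow_left₀ (by positivity) h8 h
        · exact pow_le_pow_left₀ (by positivity) h2 b
        · positivity
        · positivity
    _ = 12000 ^ (h + b) := by rw [pow_add]

theorem bnd_le {v Q kL kH h b : ℕ} (hQ : 1 ≤ Q) (h1 : kL + kH ≤ 2 * h)
    (h2 : kL + kH ≤ min (4 * h + b) Q) :
    (bnd v Q (kL, kH, h, b) : ℝ) ≤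
      12000 ^ (h + b) * (v : ℝ) ^ kL * (Q : ℝ) ^ (kH + (h - (kL + kH))) := by
  have hR1 : min (4 * h + b) Q ≤ 4 * h + b := min_le_left _ _
  have hR2 : min (4 * h + b) Q ≤ Q := min_le_right _ _
  unfold bnd
  dsimp only
  generalize min (4 * h + b) Q = R at *
  push_cast
  have hQr : (1 : ℝ) ≤ Q := by exact_mod_cast hQ
  have c1 : ((v.choose kL : ℕ) : ℝ) ≤ (v : ℝ) ^ kL / (kL.factorial : ℝ) :=
    Nat.choose_le_pow_div kL v
  have c2 : ((Q.choose kH : ℕ) : ℝ) ≤ (Q : ℝ) ^ kH / (kH.factorial : ℝ) :=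
    Nat.choose_le_pow_div kH Q
  have c3 : (((R ^ 2).choose h : ℕ) : ℝ) ≤ (R : ℝ) ^ (2 * h) / (h.factorial : ℝ) := by
    have := Nat.choose_le_pow_div (α := ℝ) h (R ^ 2)
    push_cast at this
    rwa [← pow_mul] at this
  have hexpR : Real.exp (R : ℝ) ≤ Real.exp ((4 * h + b : ℕ) : ℝ) := by
    apply Real.exp_le_exp.2
    exact_mod_cast hR1
  -- the second factor
  have d1 : (R : ℝ) ^ h / (h.factorial : ℝ) ≤ Real.exp ((4 * h + b : ℕ) : ℝ) :=
    (pow_fact_le R h).trans hexpR
  have d2 : (R : ℝ) ^ h / ((kL + kH).factorial : ℝ) ≤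
      Real.exp ((4 * h + b : ℕ) : ℝ) * (Q : ℝ) ^ (h - (kL + kH)) := by
    have hkpos : (0 : ℝ) < ((kL + kH).factorial : ℝ) := by
      exact_mod_cast Nat.factorial_pos _
    rcases le_total (kL + kH) h with hk | hk
    · have hs : (R : ℝ) ^ h = (R : ℝ) ^ (kL + kH) * (R : ℝ) ^ (h - (kL + kH)) := by
        rw [← pow_add]; congr 1; omega
      rw [hs, mul_div_right_comm]
      apply mul_le_mul ((pow_fact_le R _).trans hexpR)
      · exact pow_le_pow_left₀ (Nat.cast_nonneg R) (by exact_mod_cast hR2) _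
      · positivity
      · positivity
    · have h0 : h - (kL + kH) = 0 := by omega
      rw [h0, pow_zero, mul_one]
      refine le_trans ?_ ((pow_fact_le R (kL + kH)).trans hexpR)
      apply div_le_div_of_nonneg_right _ hkpos.le
      rcases Nat.eq_zero_or_pos R with hR0 | hRpos
      · have : kL + kH = 0 := by omega
        have : h = 0 := by omega
        subst this
        rw [hR0] at *
        simp_all
      · apply pow_le_pow_right₀ _ hk
        exact_mod_cast hRpos
  have d3 : (2 : ℝ) ^ (kL + kH) ≤ 4 ^ h := by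
    calc (2 : ℝ) ^ (kL + kH) ≤ 2 ^ (2 * h) := pow_le_pow_right₀ (by norm_num) h1
      _ = 4 ^ h := by rw [pow_mul]; norm_num
  have e1 := two_fact kL kH
  have fL : (0 : ℝ) < kL.factorial := by exact_mod_cast Nat.factorial_pos kL
  have fH : (0 : ℝ) < kH.factorial := by exact_mod_cast Nat.factorial_pos kH
  have fh : (0 : ℝ) < h.factorial := by exact_mod_cast Nat.factorial_pos h
  have fk : (0 : ℝ) < (kL + kH).factorial := by exact_mod_cast Nat.factorial_pos _
  calc ((v.choose kL : ℕ) : ℝ) * ((Q.choose kH : ℕ) : ℝ) * (((R ^ 2).choose h : ℕ) : ℝ)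
      ≤ ((v : ℝ) ^ kL / (kL.factorial : ℝ)) * ((Q : ℝ) ^ kH / (kH.factorial : ℝ)) *
          ((R : ℝ) ^ (2 * h) / (h.factorial : ℝ)) := by
        apply mul_le_mul _ c3 (by positivity) (by positivity)
        exact mul_le_mul c1 c2 (by positivity) (by positivity)
    _ = (v : ℝ) ^ kL * (Q : ℝ) ^ kH * (1 / ((kL.factorial : ℝ) * (kH.factorial : ℝ))) *
          ((R : ℝ) ^ h) * ((R : ℝ) ^ h / (h.factorial : ℝ)) := by
        rw [two_mul h, pow_add]; field_simp
    _ ≤ (v : ℝ) ^ kL * (Q : ℝ) ^ kH * (2 ^ (kL + kH) / ((kL + kH).factorial : ℝ)) *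
          ((R : ℝ) ^ h) * ((R : ℝ) ^ h / (h.factorial : ℝ)) := by
        gcongr
    _ = (v : ℝ) ^ kL * (Q : ℝ) ^ kH * 2 ^ (kL + kH) *
          ((R : ℝ) ^ h / ((kL + kH).factorial : ℝ)) * ((R : ℝ) ^ h / (h.factorial : ℝ)) := by
        ring
    _ ≤ (v : ℝ) ^ kL * (Q : ℝ) ^ kH * 4 ^ h *
          (Real.exp ((4 * h + b : ℕ) : ℝ) * (Q : ℝ) ^ (h - (kL + kH))) *
            Real.exp ((4 * h + b : ℕ) : ℝ) := by
        gcongr
    _ = (Real.exp ((4 * h + b : ℕ) : ℝ) * Real.exp ((4 * h + b : ℕ) : ℝ) * 4 ^ h) *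
          (v : ℝ) ^ kL * (Q : ℝ) ^ (kH + (h - (kL + kH))) := by
        rw [pow_add]; ring
    _ ≤ 12000 ^ (h + b) * (v : ℝ) ^ kL * (Q : ℝ) ^ (kH + (h - (kL + kH))) := by
        gcongr
        exact exp_num h b

/-- the product of the bounds over all points -/
theorem prod_bnd {m s β : ℕ} {X Y : Finset (Finset V)} (hS : Str s β X Y) (H : Finset V)
    (π : V ≃ Fin m) {v Q : ℕ} (hQ : 1 ≤ Q)
    (h2 : ∀ a, (newP H π X Y a ∪ halfP H π X Y a).card ≤ Q) :
    ((∏ a, bnd v Q (prof H π X Y a) : ℕ) : ℝ) ≤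
      12000 ^ (s + β) * (v : ℝ) ^ (nL H π X Y) * (Q : ℝ) ^ (s + β - nL H π X Y) := by
  have hQr : (1 : ℝ) ≤ Q := by exact_mod_cast hQ
  have hsp : ∀ a, (newP H π X Y a \ H).card + (newP H π X Y a ∩ H).card =
      (newP H π X Y a).card := fun a => Finset.card_sdiff_add_card_inter _ _
  have hkey : ∀ a, (newP H π X Y a).card ≤
      ((fst H π a X).card + (fst H π a Y).card) + bdP H π X Y a := fun a => loc_new hS H π a
  have hkey2 : ∀ a, (newP H π X Y a).card ≤
      2 * ((fst H π a X).card + (fst H π a Y).card) := fun a => loc_new2 hS H π a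
  have hsum : ∑ a, (((fst H π a X).card + (fst H π a Y).card) + bdP H π X Y a) ≤ s + β := by
    rw [Finset.sum_add_distrib, sum_fst hS H π]
    exact Nat.add_le_add_left (sum_bd hS H π) s
  push_cast
  calc (∏ a, (bnd v Q (prof H π X Y a) : ℝ))
      ≤ ∏ a, ((12000 : ℝ) ^ (((fst H π a X).card + (fst H π a Y).card) + bdP H π X Y a) *
          (v : ℝ) ^ (newP H π X Y a \ H).card *
          (Q : ℝ) ^ ((((fst H π a X).card + (fst H π a Y).card) + bdP H π X Y a) -
            (newP H π X Y a \ H).card)) := by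
        apply Finset.prod_le_prod
        · intro a _
          positivity
        · intro a _
          have hb := bnd_le (v := v) (Q := Q) (kL := (newP H π X Y a \ H).card)
            (kH := (newP H π X Y a ∩ H).card)
            (h := (fst H π a X).card + (fst H π a Y).card) (b := bdP H π X Y a) hQ
            (by rw [hsp]; exact hkey2 a)
            (by
              rw [hsp]
              apply le_min
              · have := hkey a
                omega
              · exact (Finset.card_le_card Finset.subset_union_left).trans (h2 a))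
          refine hb.trans ?_
          apply mul_le_mul_of_nonneg_left _ (by positivity)
          apply pow_le_pow_right₀ hQr
          have := hkey a
          have := hsp a
          omega
    _ = (12000 : ℝ) ^ (∑ a, (((fst H π a X).card + (fst H π a Y).card) + bdP H π X Y a)) *
          (v : ℝ) ^ (∑ a, (newP H π X Y a \ H).card) *
          (Q : ℝ) ^ (∑ a, ((((fst H π a X).card + (fst H π a Y).card) + bdP H π X Y a) -
            (newP H π X Y a \ H).card)) := by
        rw [Finset.prod_mul_distrib, Finset.prod_mul_distrib, Finset.prod_pow_eq_pow_sum,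
          Finset.prod_pow_eq_pow_sum, Finset.prod_pow_eq_pow_sum]
    _ ≤ 12000 ^ (s + β) * (v : ℝ) ^ (nL H π X Y) * (Q : ℝ) ^ (s + β - nL H π X Y) := by
        have e1 : ∑ a, ((((fst H π a X).card + (fst H π a Y).card) + bdP H π X Y a) -
            (newP H π X Y a \ H).card) ≤ s + β - nL H π X Y := by
          have : ∑ a, ((((fst H π a X).card + (fst H π a Y).card) + bdP H π X Y a) -
              (newP H π X Y a \ H).card) + nL H π X Y =
              ∑ a, (((fst H π a X).card + (fst H π a Y).card) + bdP H π X Y a) := by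
            unfold nL
            rw [← Finset.sum_add_distrib]
            apply Finset.sum_congr rfl
            intro a _
            have := hkey a
            have := hsp a
            omega
          omega
        apply mul_le_mul _ (pow_le_pow_right₀ hQr e1) (by positivity) (by positivity)
        apply mul_le_mul_of_nonneg_right _ (by positivity)
        exact pow_le_pow_right₀ (by norm_num) hsum

end Pool.Agent.Lib.FA
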