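import Pool.Agent.Lib.MP_6d56f7_co_FA.Defs

/-!
# The number of profiles
-/

set_option autoImplicit false

namespace Pool.Agent.Lib.FA

open Finset

variable {V : Type} [Fintype V] [DecidableEq V]

private theorem Prf_geo (N : ℕ) : ∑ j ∈ range N, (1 / 2 : ℝ) ^ j = 2 - 2 * (1 / 2) ^ N := by
  induction N with
  | zero => norm_num
  | succ n ih => rw [sum_range_succ, ih, pow_succ]; ring

/-- the number of functions with support in `A` and bounded sum -/
theorem fun_count (A : Finset V) (N : ℕ) (𝒬 : Finset (V → ℕ)) (h0 : ∀ f ∈ 𝒬, ∀ a, a ∉ A → f a = 0)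
    (h1 : ∀ f ∈ 𝒬, ∑ a, f a ≤ N) : 𝒬.card ≤ 2 ^ (A.card + N) := by
  classical
  let t : V → Finset ℕ := fun a => if a ∈ A then range (N + 1) else {0}
  have hsub : 𝒬 ⊆ Fintype.piFinset t := by
    intro f hf
    rw [Fintype.mem_piFinset]
    intro a
    by_cases ha : a ∈ A
    · simp only [t, if_pos ha, mem_range]
      have h2 := h1 f hf
      have h3 : f a ≤ ∑ a, f a := single_le_sum (fun i _ => Nat.zero_le _) (mem_univ a)
      omega
    · simp only [t, if_neg ha, mem_singleton]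
      exact h0 f hf a ha
  have hsum : ∑ f ∈ Fintype.piFinset t, ∏ a, (1 / 2 : ℝ) ^ f a ≤ 2 ^ A.card := by
    rw [← Finset.prod_univ_sum t (fun _ j => (1 / 2 : ℝ) ^ j)]
    calc ∏ a, ∑ j ∈ t a, (1 / 2 : ℝ) ^ j ≤ ∏ a, (if a ∈ A then 2 else 1 : ℝ) := by
          refine prod_le_prod (fun a _ => sum_nonneg fun j _ => by positivity) (fun a _ => ?_)
          by_cases ha : a ∈ A
          · simp only [t, if_pos ha]
            rw [Prf_geo]
            have h2 : (0 : ℝ) < (1 / 2) ^ (N + 1) := by positivity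
            linarith
          · simp [t, if_neg ha]
      _ = 2 ^ A.card := by
          rw [prod_ite_mem, univ_inter, prod_const]
  have hlow : (𝒬.card : ℝ) * (1 / 2) ^ N ≤ ∑ f ∈ 𝒬, ∏ a, (1 / 2 : ℝ) ^ f a := by
    rw [← nsmul_eq_mul]
    refine card_nsmul_le_sum _ _ _ (fun f hf => ?_)
    rw [prod_pow_eq_pow_sum]
    exact pow_le_pow_of_le_one (by norm_num) (by norm_num) (h1 f hf)
  have h3 : (𝒬.card : ℝ) * (1 / 2) ^ N ≤ 2 ^ A.card :=
    hlow.trans ((sum_le_sum_of_subset_of_nonneg hsub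
      (fun f _ _ => prod_nonneg fun a _ => by positivity)).trans hsum)
  have h4 : (𝒬.card : ℝ) ≤ 2 ^ (A.card + N) := by
    have h5 : (0 : ℝ) < 2 ^ N := by positivity
    have h6 : ((1 : ℝ) / 2) ^ N * 2 ^ N = 1 := by rw [← mul_pow]; norm_num
    calc (𝒬.card : ℝ) = 𝒬.card * (1 / 2) ^ N * 2 ^ N := by rw [mul_assoc, h6, mul_one]
      _ ≤ 2 ^ A.card * 2 ^ N := mul_le_mul_of_nonneg_right h3 h5.le
      _ = 2 ^ (A.card + N) := by rw [pow_add]
  exact_mod_cast h4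

/-- the number of profiles -/
theorem prof_count (A : Finset V) (s β : ℕ) (𝒬 : Finset (V → ℕ × ℕ × ℕ × ℕ))
    (h0 : ∀ f ∈ 𝒬, ∀ a, a ∉ A → f a = (0, 0, 0, 0)) (h1 : ∀ f ∈ 𝒬, ∑ a, (f a).1 ≤ 2 * s)
    (h2 : ∀ f ∈ 𝒬, ∑ a, (f a).2.1 ≤ 2 * s) (h3 : ∀ f ∈ 𝒬, ∑ a, (f a).2.2.1 ≤ s)
    (h4 : ∀ f ∈ 𝒬, ∑ a, (f a).2.2.2 ≤ β) : 𝒬.card ≤ 2 ^ (4 * A.card + 5 * s + β) := by
  classical
  have hc : ∀ (N : ℕ) (p : (ℕ × ℕ × ℕ × ℕ) → ℕ), p (0, 0, 0, 0) = 0 →
      (∀ f ∈ 𝒬, ∑ a, p (f a) ≤ N) →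
      (𝒬.image (fun f a => p (f a))).card ≤ 2 ^ (A.card + N) := by
    intro N p hp hN
    refine fun_count A N _ ?_ ?_
    · intro g hg a ha
      obtain ⟨f, hf, rfl⟩ := mem_image.1 hg
      change p (f a) = 0
      rw [h0 f hf a ha, hp]
    · intro g hg
      obtain ⟨f, hf, rfl⟩ := mem_image.1 hg
      exact hN f hf
  have c1 := hc (2 * s) (fun x => x.1) rfl h1
  have c2 := hc (2 * s) (fun x => x.2.1) rfl h2
  have c3 := hc s (fun x => x.2.2.1) rfl h3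
  have c4 := hc β (fun x => x.2.2.2) rfl h4
  have hinj : 𝒬.card ≤ ((𝒬.image (fun f a => (f a).1)) ×ˢ ((𝒬.image (fun f a => (f a).2.1)) ×ˢ
      ((𝒬.image (fun f a => (f a).2.2.1)) ×ˢ (𝒬.image (fun f a => (f a).2.2.2))))).card := by
    refine card_le_card_of_injOn (fun f => (fun a => (f a).1, fun a => (f a).2.1,
      fun a => (f a).2.2.1, fun a => (f a).2.2.2)) ?_ ?_
    · intro f hf
      have hf' : f ∈ 𝒬 := hf
      refine mem_coe.2 (mem_product.2 ⟨mem_image.2 ⟨f, hf', rfl⟩, mem_product.2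
        ⟨mem_image.2 ⟨f, hf', rfl⟩, mem_product.2 ⟨mem_image.2 ⟨f, hf', rfl⟩,
        mem_image.2 ⟨f, hf', rfl⟩⟩⟩⟩)
    · intro f _ g _ h
      funext a
      have e1 := congrFun (congrArg Prod.fst h) a
      have e2 := congrFun (congrArg (fun x => x.2.1) h) a
      have e3 := congrFun (congrArg (fun x => x.2.2.1) h) a
      have e4 := congrFun (congrArg (fun x => x.2.2.2) h) a
      exact Prod.ext e1 (Prod.ext e2 (Prod.ext e3 e4))
  rw [card_product, card_product, card_product] at hinj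
  refine hinj.trans ((Nat.mul_le_mul c1 (Nat.mul_le_mul c2 (Nat.mul_le_mul c3 c4))).trans ?_)
  rw [← pow_add, ← pow_add, ← pow_add]
  exact Nat.pow_le_pow_right (by norm_num) (by omega)

end Pool.Agent.Lib.FA
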