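import Pool.Agent.Lib.MP_6d56f7_co_FA.Cnt
import Pool.Agent.Lib.MP_6d56f7_co_FA.Num
import Pool.Agent.Lib.MP_6d56f7_co_FA.Prf
import Pool.Agent.Lib.MP_6d56f7_co_FA.Avg

/-!
# The number of pairs of systems
-/

set_option autoImplicit false

namespace Pool.Agent.Lib.FA

open Finset

variable {V : Type} [Fintype V] [DecidableEq V]

private theorem prof_off {m : ℕ} (H : Finset V) (π : V ≃ Fin m) {X Y : Finset (Finset V)} {a : V}
    (ha : a ∉ actS X Y) : prof H π X Y a = (0, 0, 0, 0) := by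
  classical
  have hX : ∀ T ∈ X, a ∉ T := fun T hT h => ha (by
    simp only [actS, mem_filter, mem_univ, true_and]
    exact ⟨T, mem_union_left _ hT, h⟩)
  have hY : ∀ T ∈ Y, a ∉ T := fun T hT h => ha (by
    simp only [actS, mem_filter, mem_univ, true_and]
    exact ⟨T, mem_union_right _ hT, h⟩)
  have cX : ∀ b, ¬ Cv X a b := fun b ⟨T, hT, h, _⟩ => hX T hT h
  have cY : ∀ b, ¬ Cv Y a b := fun b ⟨T, hT, h, _⟩ => hY T hT h
  have e1 : newP H π X Y a = ∅ := by
    simp only [newP]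
    apply filter_eq_empty_iff.mpr
    intro b _ h
    rcases h.2.1 with h | h
    · exact cX b h
    · exact cY b h
  have e2 : fst H π a X = ∅ := by
    simp only [fst]
    apply filter_eq_empty_iff.mpr
    intro T hT h
    exact hX T hT h.1
  have e3 : fst H π a Y = ∅ := by
    simp only [fst]
    apply filter_eq_empty_iff.mpr
    intro T hT h
    exact hY T hT h.1
  have e4 : bdP H π X Y a = 0 := by
    simp only [bdP]
    rw [card_eq_zero]
    apply filter_eq_empty_iff.mpr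
    intro b _ h
    exact h.2 ⟨fun h => absurd h (cX b), fun h => absurd h (cY b)⟩
  simp [prof, e1, e2, e3, e4]

private theorem pow_bd {s β n v R Q : ℕ} (hR : 1 ≤ R) (hRv : R ≤ v) (hRQ : R ≤ Q)
    (hn : 8 * n ≤ 7 * s) :
    (v : ℝ) ^ n * (R : ℝ) ^ (s + β - n) ≤
      (v : ℝ) ^ ((7 / 8 : ℝ) * s) * (Q : ℝ) ^ ((1 / 8 : ℝ) * s + β) := by
  have hR0 : (0 : ℝ) < R := by exact_mod_cast hR
  have hv0 : (0 : ℝ) < v := by exact_mod_cast (lt_of_lt_of_le hR hRv)
  have hn' : (8 : ℝ) * n ≤ 7 * s := by exact_mod_cast hn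
  have hx : 0 ≤ (7 / 8 : ℝ) * s - n := by linarith
  have hns : n ≤ s + β := by omega
  have e1 : (v : ℝ) ^ ((7 / 8 : ℝ) * s) = (v : ℝ) ^ n * (v : ℝ) ^ ((7 / 8 : ℝ) * s - n) := by
    rw [← Real.rpow_natCast, ← Real.rpow_add hv0]
    congr 1
    ring
  have e2 : (R : ℝ) ^ (s + β - n) =
      (R : ℝ) ^ ((1 / 8 : ℝ) * s + β) * (R : ℝ) ^ ((7 / 8 : ℝ) * s - n) := by
    rw [← Real.rpow_natCast, ← Real.rpow_add hR0, Nat.cast_sub hns]
    congr 1
    push_cast
    ring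
  have h1 : (R : ℝ) ^ ((7 / 8 : ℝ) * s - n) ≤ (v : ℝ) ^ ((7 / 8 : ℝ) * s - n) :=
    Real.rpow_le_rpow hR0.le (by exact_mod_cast hRv) hx
  have h2 : (R : ℝ) ^ ((1 / 8 : ℝ) * s + β) ≤ (Q : ℝ) ^ ((1 / 8 : ℝ) * s + β) :=
    Real.rpow_le_rpow hR0.le (by exact_mod_cast hRQ) (by positivity)
  rw [e1, e2]
  have p1 : 0 ≤ (v : ℝ) ^ n := by positivity
  have p2 : 0 ≤ (R : ℝ) ^ ((7 / 8 : ℝ) * s - n) := by positivity
  have p3 : 0 ≤ (Q : ℝ) ^ ((1 / 8 : ℝ) * s + β) := by positivity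
  calc (v : ℝ) ^ n * ((R : ℝ) ^ ((1 / 8 : ℝ) * s + β) * (R : ℝ) ^ ((7 / 8 : ℝ) * s - n))
      ≤ (v : ℝ) ^ n * ((Q : ℝ) ^ ((1 / 8 : ℝ) * s + β) * (v : ℝ) ^ ((7 / 8 : ℝ) * s - n)) := by
        apply mul_le_mul_of_nonneg_left _ p1
        exact mul_le_mul h2 h1 p2 p3
    _ = (v : ℝ) ^ n * (v : ℝ) ^ ((7 / 8 : ℝ) * s - n) * (Q : ℝ) ^ ((1 / 8 : ℝ) * s + β) := by
        ring

open Classical in
/-- the number of pairs of systems with few new points in one order, for given sets of active and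
of high points -/
theorem count_order {s β τ Q : ℕ} (hs : 1 ≤ s) (hβ : β ≤ s) (hQ : 1 ≤ Q) (hτQ : τ ≤ Q)
    (A H : Finset V)
    (hHQ : H.card ≤ Q) (hHA : H ⊆ A) (hA : 1 ≤ A.card) {m : ℕ} (π : V ≃ Fin m) :
    ((univ.filter (fun S : Finset (Finset V) × Finset (Finset V) => Str s β S.1 S.2 ∧
      actS S.1 S.2 = A ∧ hiS τ S.1 S.2 = H ∧ 8 * nL H π S.1 S.2 ≤ 7 * s)).card : ℝ) ≤
      2 ^ (4 * A.card + 5 * s + β) * (12000 ^ (s + β) * (A.card : ℝ) ^ ((7 / 8 : ℝ) * s) *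
        (Q : ℝ) ^ ((1 / 8 : ℝ) * s + β)) := by
  set 𝒮 := univ.filter (fun S : Finset (Finset V) × Finset (Finset V) => Str s β S.1 S.2 ∧
      actS S.1 S.2 = A ∧ hiS τ S.1 S.2 = H ∧ 8 * nL H π S.1 S.2 ≤ 7 * s) with h𝒮
  set B : ℝ := 12000 ^ (s + β) * (A.card : ℝ) ^ ((7 / 8 : ℝ) * s) *
        (Q : ℝ) ^ ((1 / 8 : ℝ) * s + β) with hB
  have hB0 : 0 ≤ B := by positivity
  have mem : ∀ S ∈ 𝒮, Str s β S.1 S.2 ∧ actS S.1 S.2 = A ∧ hiS τ S.1 S.2 = H ∧
      8 * nL H π S.1 S.2 ≤ 7 * s := by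
    intro S hS
    rw [h𝒮, mem_filter] at hS
    exact hS.2
  set R := min Q A.card with hR
  have hR1 : 1 ≤ R := le_min hQ hA
  have hRQ : R ≤ Q := min_le_left _ _
  have hRA : R ≤ A.card := min_le_right _ _
  have hHR : H.card ≤ R := le_min hHQ (card_le_card hHA)
  have hloc : ∀ S ∈ 𝒮, ∀ a, (newP H π S.1 S.2 a ∪ halfP H π S.1 S.2 a).card ≤ R := by
    intro S hS a
    obtain ⟨_, h2, h3, _⟩ := mem S hS
    apply le_min
    · subst h3
      exact loc_Q hτQ hHQ π a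
    · subst h2
      exact card_le_card (new_act H π a)
  have hsub : ∀ S ∈ 𝒮, ∀ a, newP H π S.1 S.2 a ⊆ A := by
    intro S hS a
    obtain ⟨_, h2, _, _⟩ := mem S hS
    subst h2
    exact subset_union_left.trans (new_act H π a)
  set p : Finset (Finset V) × Finset (Finset V) → V → ℕ × ℕ × ℕ × ℕ :=
    fun S a => prof H π S.1 S.2 a with hp
  have hfib : ∀ f ∈ 𝒮.image p, ((𝒮.filter (fun S => p S = f)).card : ℝ) ≤ B := by
    intro f hf
    obtain ⟨S₀, hS₀, rfl⟩ := mem_image.mp hf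
    have h1 : (𝒮.filter (fun S => p S = p S₀)).card ≤ ∏ a, bnd A.card R (p S₀ a) := by
      apply cnt_prof A H hHR π (p S₀)
      · intro S hS
        exact ⟨s, β, (mem S (mem_filter.mp hS).1).1⟩
      · intro S hS
        exact hloc S (mem_filter.mp hS).1
      · intro S hS
        exact hsub S (mem_filter.mp hS).1
      · intro S hS a
        exact congrFun (mem_filter.mp hS).2 a
    have h2 := prod_bnd (mem S₀ hS₀).1 H π (v := A.card) hR1 (hloc S₀ hS₀)
    have h3 := pow_bd (β := β) hR1 hRA hRQ (mem S₀ hS₀).2.2.2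
    calc ((𝒮.filter (fun S => p S = p S₀)).card : ℝ)
        ≤ ((∏ a, bnd A.card R (p S₀ a) : ℕ) : ℝ) := by exact_mod_cast h1
      _ ≤ 12000 ^ (s + β) * (A.card : ℝ) ^ (nL H π S₀.1 S₀.2) *
          (R : ℝ) ^ (s + β - nL H π S₀.1 S₀.2) := h2
      _ = 12000 ^ (s + β) * ((A.card : ℝ) ^ (nL H π S₀.1 S₀.2) *
          (R : ℝ) ^ (s + β - nL H π S₀.1 S₀.2)) := by ring
      _ ≤ 12000 ^ (s + β) * ((A.card : ℝ) ^ ((7 / 8 : ℝ) * s) *
          (Q : ℝ) ^ ((1 / 8 : ℝ) * s + β)) :=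
          mul_le_mul_of_nonneg_left h3 (by positivity)
      _ = B := by rw [hB]; ring
  have hnum : (𝒮.image p).card ≤ 2 ^ (4 * A.card + 5 * s + β) := by
    have hnew : ∀ S ∈ 𝒮, ∑ a, (newP H π S.1 S.2 a).card ≤ 2 * s := by
      intro S hS
      calc ∑ a, (newP H π S.1 S.2 a).card
          ≤ ∑ a, 2 * ((fst H π a S.1).card + (fst H π a S.2).card) :=
            sum_le_sum (fun a _ => loc_new2 (mem S hS).1 H π a)
        _ = 2 * s := by rw [← mul_sum, sum_fst (mem S hS).1 H π]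
    apply prof_count A s β
    · intro f hf a ha
      obtain ⟨S, hS, rfl⟩ := mem_image.mp hf
      apply prof_off
      rw [(mem S hS).2.1]
      exact ha
    · intro f hf
      obtain ⟨S, hS, rfl⟩ := mem_image.mp hf
      refine le_trans (sum_le_sum (fun a _ => ?_)) (hnew S hS)
      exact card_le_card sdiff_subset
    · intro f hf
      obtain ⟨S, hS, rfl⟩ := mem_image.mp hf
      refine le_trans (sum_le_sum (fun a _ => ?_)) (hnew S hS)
      exact card_le_card inter_subset_left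
    · intro f hf
      obtain ⟨S, hS, rfl⟩ := mem_image.mp hf
      exact (sum_fst (mem S hS).1 H π).le
    · intro f hf
      obtain ⟨S, hS, rfl⟩ := mem_image.mp hf
      exact sum_bd (mem S hS).1 H π
  have e1 : (𝒮.card : ℝ) = ∑ f ∈ 𝒮.image p, ((𝒮.filter (fun S => p S = f)).card : ℝ) := by
    rw [card_eq_sum_card_image p 𝒮]
    push_cast
    rfl
  rw [e1]
  calc ∑ f ∈ 𝒮.image p, ((𝒮.filter (fun S => p S = f)).card : ℝ)
      ≤ (𝒮.image p).card • B := sum_le_card_nsmul _ _ _ hfib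
    _ = ((𝒮.image p).card : ℝ) * B := by rw [nsmul_eq_mul]
    _ ≤ 2 ^ (4 * A.card + 5 * s + β) * B := by
        apply mul_le_mul_of_nonneg_right _ hB0
        exact_mod_cast hnum

private theorem choose_bd {m s v : ℕ} (hv : 1 ≤ v) (hvs : 16 * v ≤ 13 * s) :
    (m.choose v : ℝ) * (v : ℝ) ^ ((7 / 8 : ℝ) * s) ≤ 3 ^ s * (m : ℝ) ^ ((7 / 8 : ℝ) * s) := by
  rcases lt_or_ge m v with h | h
  · rw [Nat.choose_eq_zero_of_lt h, Nat.cast_zero, zero_mul]
    positivity
  · have hv0 : (0 : ℝ) < v := by exact_mod_cast hv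
    have hm0 : (0 : ℝ) < m := by exact_mod_cast (lt_of_lt_of_le hv h)
    have hvs' : (16 : ℝ) * v ≤ 13 * s := by exact_mod_cast hvs
    have hx : 0 ≤ (7 / 8 : ℝ) * s - v := by linarith
    have hvs1 : v ≤ s := by omega
    have e1 : (v : ℝ) ^ ((7 / 8 : ℝ) * s) = (v : ℝ) ^ v * (v : ℝ) ^ ((7 / 8 : ℝ) * s - v) := by
      rw [← Real.rpow_natCast, ← Real.rpow_add hv0]
      congr 1
      ring
    have e2 : (m : ℝ) ^ ((7 / 8 : ℝ) * s) = (m : ℝ) ^ v * (m : ℝ) ^ ((7 / 8 : ℝ) * s - v) := by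
      rw [← Real.rpow_natCast, ← Real.rpow_add hm0]
      congr 1
      ring
    have h1 : (m.choose v : ℝ) ≤ (m : ℝ) ^ v / (v.factorial : ℝ) := Nat.choose_le_pow_div v m
    have h2 : (v : ℝ) ^ v / (v.factorial : ℝ) ≤ 3 ^ s := by
      calc (v : ℝ) ^ v / (v.factorial : ℝ) ≤ Real.exp v :=
            Real.pow_div_factorial_le_exp (v : ℝ) hv0.le v
        _ = Real.exp 1 ^ v := by rw [← Real.exp_nat_mul, mul_one]
        _ ≤ 3 ^ v := pow_le_pow_left₀ (Real.exp_pos 1).le Real.exp_one_lt_three.le v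
        _ ≤ 3 ^ s := pow_le_pow_right₀ (by norm_num) hvs1
    have h4 : (v : ℝ) ^ ((7 / 8 : ℝ) * s - v) ≤ (m : ℝ) ^ ((7 / 8 : ℝ) * s - v) :=
      Real.rpow_le_rpow hv0.le (by exact_mod_cast h) hx
    rw [e1, e2]
    have p1 : 0 ≤ (v : ℝ) ^ ((7 / 8 : ℝ) * s - v) := by positivity
    calc (m.choose v : ℝ) * ((v : ℝ) ^ v * (v : ℝ) ^ ((7 / 8 : ℝ) * s - v))
        ≤ (m : ℝ) ^ v / (v.factorial : ℝ) * ((v : ℝ) ^ v * (v : ℝ) ^ ((7 / 8 : ℝ) * s - v)) :=
          mul_le_mul_of_nonneg_right h1 (by positivity)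
      _ = (m : ℝ) ^ v * (((v : ℝ) ^ v / (v.factorial : ℝ)) *
          (v : ℝ) ^ ((7 / 8 : ℝ) * s - v)) := by ring
      _ ≤ (m : ℝ) ^ v * (3 ^ s * (m : ℝ) ^ ((7 / 8 : ℝ) * s - v)) := by
          apply mul_le_mul_of_nonneg_left _ (by positivity)
          exact mul_le_mul h2 h4 p1 (by positivity)
      _ = 3 ^ s * ((m : ℝ) ^ v * (m : ℝ) ^ ((7 / 8 : ℝ) * s - v)) := by ring

private theorem const_bd {s β v : ℕ} (hs : 1 ≤ s) (hβ : 32 * β ≤ s) (hv : v ≤ s) :
    (10 : ℝ) * (s * (2 ^ v * 2 ^ (4 * v + 5 * s + β) * 12000 ^ (s + β) * 3 ^ s)) ≤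
      (10 ^ 15) ^ s := by
  have h1 : (2 : ℝ) ^ v * 2 ^ (4 * v + 5 * s + β) ≤ 2048 ^ s := by
    rw [← pow_add]
    calc (2 : ℝ) ^ (v + (4 * v + 5 * s + β)) ≤ 2 ^ (11 * s) :=
          pow_le_pow_right₀ (by norm_num) (by omega)
      _ = 2048 ^ s := by rw [pow_mul]; norm_num
  have h2 : (12000 : ℝ) ^ (s + β) ≤ 24000 ^ s := by
    calc (12000 : ℝ) ^ (s + β) = 12000 ^ s * 12000 ^ β := pow_add _ _ _
      _ ≤ 12000 ^ s * 2 ^ s := by
          apply mul_le_mul_of_nonneg_left _ (by positivity)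
          calc (12000 : ℝ) ^ β ≤ (2 ^ 32) ^ β :=
                pow_le_pow_left₀ (by norm_num) (by norm_num) β
            _ = 2 ^ (32 * β) := by rw [pow_mul]
            _ ≤ 2 ^ s := pow_le_pow_right₀ (by norm_num) hβ
      _ = 24000 ^ s := by rw [← mul_pow]; norm_num
  have h3 : (10 : ℝ) * s ≤ 10 ^ s := by
    have h : ∀ k : ℕ, 1 ≤ k → 10 * k ≤ 10 ^ k := by
      intro k hk
      induction k, hk using Nat.le_induction with
      | base => norm_num
      | succ k hk ih =>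
        have h10 : 10 ≤ 10 ^ k := by
          calc 10 = 10 ^ 1 := by norm_num
            _ ≤ 10 ^ k := Nat.pow_le_pow_right (by norm_num) hk
        rw [pow_succ]
        omega
    exact_mod_cast h s hs
  calc (10 : ℝ) * (s * (2 ^ v * 2 ^ (4 * v + 5 * s + β) * 12000 ^ (s + β) * 3 ^ s))
      = (10 * s) * ((2 ^ v * 2 ^ (4 * v + 5 * s + β)) * 12000 ^ (s + β) * 3 ^ s) := by ring
    _ ≤ 10 ^ s * (2048 ^ s * 24000 ^ s * 3 ^ s) := by
        apply mul_le_mul h3 _ (by positivity) (by positivity)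
        apply mul_le_mul_of_nonneg_right _ (by positivity)
        exact mul_le_mul h1 h2 (by positivity) (by positivity)
    _ = (10 * (2048 * 24000 * 3)) ^ s := by simp only [mul_pow]
    _ ≤ (10 ^ 15) ^ s := pow_le_pow_left₀ (by norm_num) (by norm_num) s

open Classical in
/-- the count for one order -/
private theorem count_one {s β τ Q : ℕ} (hs : 1 ≤ s) (hβ : 32 * β ≤ s) (hτ : 1 ≤ τ)
    (hτQ : τ ≤ Q) (hQ : 6 * s ≤ τ * Q) {m : ℕ} (π : V ≃ Fin m) :
    10 * ((univ.filter (fun S : Finset (Finset V) × Finset (Finset V) => Str s β S.1 S.2 ∧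
      8 * nL (hiS τ S.1 S.2) π S.1 S.2 ≤ 7 * s)).card : ℝ) ≤
      (10 ^ 15 : ℝ) ^ s * (Fintype.card V : ℝ) ^ ((7 / 8 : ℝ) * s) *
        (Q : ℝ) ^ ((1 / 8 : ℝ) * s + β) := by
  set F : Finset V → Finset V → Finset (Finset (Finset V) × Finset (Finset V)) := fun A H =>
    univ.filter (fun S : Finset (Finset V) × Finset (Finset V) => Str s β S.1 S.2 ∧
      actS S.1 S.2 = A ∧ hiS τ S.1 S.2 = H ∧ 8 * nL H π S.1 S.2 ≤ 7 * s) with hF
  set 𝒱 := (Icc 1 s).filter (fun v => 16 * v ≤ 13 * s) with h𝒱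
  set M : ℝ := (Fintype.card V : ℝ) ^ ((7 / 8 : ℝ) * s) with hM
  set Z : ℝ := (Q : ℝ) ^ ((1 / 8 : ℝ) * s + β) with hZ
  have hM0 : 0 ≤ M := by positivity
  have hZ0 : 0 ≤ Z := by positivity
  have hQ1 : 1 ≤ Q := hτ.trans hτQ
  have hβs : β ≤ s := by omega
  have hlin : ∀ S : Finset (Finset V) × Finset (Finset V), Str s β S.1 S.2 →
      hiS τ S.1 S.2 ⊆ actS S.1 S.2 ∧ (hiS τ S.1 S.2).card ≤ Q ∧ 1 ≤ (actS S.1 S.2).card ∧
      16 * (actS S.1 S.2).card ≤ 13 * s := by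
    intro S hS
    refine ⟨hi_act hS τ, ?_, ?_, ?_⟩
    · have h := hi_card hS τ
      have h' : τ * (hiS τ S.1 S.2).card ≤ τ * Q := h.trans hQ
      exact Nat.le_of_mul_le_mul_left h' hτ
    · have hc : 1 ≤ (S.1 ∪ S.2).card := by
        rw [card_union_of_disjoint hS.disj, hS.card]
        exact hs
      obtain ⟨T, hT⟩ := card_pos.mp hc
      have h3 : T.card = 3 := by
        rcases mem_union.mp hT with h | h
        · exact hS.linX.1 T h
        · exact hS.linY.1 T h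
      have hT0 : 0 < T.card := by omega
      obtain ⟨a, ha⟩ := card_pos.mp hT0
      apply card_pos.mpr
      refine ⟨a, ?_⟩
      simp only [actS, mem_filter, mem_univ, true_and]
      exact ⟨T, hT, ha⟩
    · have h := act_card hS
      omega
  have hcov : (univ.filter (fun S : Finset (Finset V) × Finset (Finset V) => Str s β S.1 S.2 ∧
      8 * nL (hiS τ S.1 S.2) π S.1 S.2 ≤ 7 * s)) ⊆
      𝒱.biUnion (fun v => (powersetCard v (univ : Finset V)).biUnion (fun A =>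
        A.powerset.biUnion (fun H => F A H))) := by
    intro S hS
    simp only [mem_filter, mem_univ, true_and] at hS
    obtain ⟨hS1, hS2⟩ := hS
    obtain ⟨a1, a2, a3, a4⟩ := hlin S hS1
    simp only [mem_biUnion, mem_powersetCard, subset_univ, true_and, mem_powerset, hF,
      mem_filter, mem_univ, h𝒱, mem_Icc]
    refine ⟨(actS S.1 S.2).card, ⟨⟨a3, by omega⟩, a4⟩, actS S.1 S.2, rfl, hiS τ S.1 S.2, a1,
      hS1, rfl, rfl, hS2⟩
  have hFb : ∀ v ∈ 𝒱, ∀ A ∈ powersetCard v (univ : Finset V), ∀ H ∈ A.powerset,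
      ((F A H).card : ℝ) ≤ 2 ^ (4 * v + 5 * s + β) * (12000 ^ (s + β) *
        (v : ℝ) ^ ((7 / 8 : ℝ) * s) * Z) := by
    intro v hv A hA H hH
    rw [mem_powersetCard] at hA
    rw [mem_powerset] at hH
    rw [h𝒱, mem_filter, mem_Icc] at hv
    rcases (F A H).eq_empty_or_nonempty with he | ⟨S, hS⟩
    · rw [he, card_empty, Nat.cast_zero]
      positivity
    · have hS' : Str s β S.1 S.2 ∧ actS S.1 S.2 = A ∧ hiS τ S.1 S.2 = H ∧
          8 * nL H π S.1 S.2 ≤ 7 * s := by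
        simp only [hF, mem_filter, mem_univ, true_and] at hS
        exact hS
      have hq : H.card ≤ Q := by
        rw [← hS'.2.2.1]
        exact (hlin S hS'.1).2.1
      have hA1 : 1 ≤ A.card := by
        rw [hA.2]
        exact hv.1.1
      have h := count_order hs hβs hQ1 hτQ A H hq hH hA1 π
      rw [hA.2] at h
      simp only [hF]
      convert h using 3
  have hsum : ((univ.filter (fun S : Finset (Finset V) × Finset (Finset V) => Str s β S.1 S.2 ∧
      8 * nL (hiS τ S.1 S.2) π S.1 S.2 ≤ 7 * s)).card : ℝ) ≤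
      ∑ v ∈ 𝒱, ((Fintype.card V).choose v : ℝ) * (2 ^ v * (2 ^ (4 * v + 5 * s + β) *
        (12000 ^ (s + β) * (v : ℝ) ^ ((7 / 8 : ℝ) * s) * Z))) := by
    have h1 := card_le_card hcov
    have h2 : ((𝒱.biUnion (fun v => (powersetCard v (univ : Finset V)).biUnion (fun A =>
        A.powerset.biUnion (fun H => F A H)))).card : ℝ) ≤
        ∑ v ∈ 𝒱, ∑ A ∈ powersetCard v (univ : Finset V), ∑ H ∈ A.powerset,
          ((F A H).card : ℝ) := by
      have h3 : (𝒱.biUnion (fun v => (powersetCard v (univ : Finset V)).biUnion (fun A =>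
          A.powerset.biUnion (fun H => F A H)))).card ≤
          ∑ v ∈ 𝒱, ∑ A ∈ powersetCard v (univ : Finset V), ∑ H ∈ A.powerset, (F A H).card := by
        refine card_biUnion_le.trans (sum_le_sum (fun v _ => ?_))
        refine card_biUnion_le.trans (sum_le_sum (fun A _ => ?_))
        exact card_biUnion_le
      exact_mod_cast h3
    refine le_trans (by exact_mod_cast h1) (h2.trans ?_)
    apply sum_le_sum
    intro v hv
    calc ∑ A ∈ powersetCard v (univ : Finset V), ∑ H ∈ A.powerset, ((F A H).card : ℝ)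
        ≤ ∑ A ∈ powersetCard v (univ : Finset V), 2 ^ v * (2 ^ (4 * v + 5 * s + β) *
          (12000 ^ (s + β) * (v : ℝ) ^ ((7 / 8 : ℝ) * s) * Z)) := by
          apply sum_le_sum
          intro A hA
          refine (sum_le_card_nsmul _ _ _ (hFb v hv A hA)).trans ?_
          rw [nsmul_eq_mul, card_powerset, (mem_powersetCard.mp hA).2]
          push_cast
          exact le_rfl
      _ = ((Fintype.card V).choose v : ℝ) * (2 ^ v * (2 ^ (4 * v + 5 * s + β) *
          (12000 ^ (s + β) * (v : ℝ) ^ ((7 / 8 : ℝ) * s) * Z))) := by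
          rw [sum_const, nsmul_eq_mul, card_powersetCard, card_univ]
  have hterm : ∀ v ∈ 𝒱, (s : ℝ) * (10 * (((Fintype.card V).choose v : ℝ) * (2 ^ v *
      (2 ^ (4 * v + 5 * s + β) * (12000 ^ (s + β) * (v : ℝ) ^ ((7 / 8 : ℝ) * s) * Z))))) ≤
      (10 ^ 15 : ℝ) ^ s * M * Z := by
    intro v hv
    rw [h𝒱, mem_filter, mem_Icc] at hv
    have h1 := choose_bd (m := Fintype.card V) hv.1.1 hv.2
    have h2 := const_bd hs hβ hv.1.2
    calc (s : ℝ) * (10 * (((Fintype.card V).choose v : ℝ) * (2 ^ v *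
        (2 ^ (4 * v + 5 * s + β) * (12000 ^ (s + β) * (v : ℝ) ^ ((7 / 8 : ℝ) * s) * Z)))))
        = (10 * (s * (2 ^ v * 2 ^ (4 * v + 5 * s + β) * 12000 ^ (s + β)))) *
          (((Fintype.card V).choose v : ℝ) * (v : ℝ) ^ ((7 / 8 : ℝ) * s)) * Z := by ring
      _ ≤ (10 * (s * (2 ^ v * 2 ^ (4 * v + 5 * s + β) * 12000 ^ (s + β)))) *
          (3 ^ s * M) * Z := by
          apply mul_le_mul_of_nonneg_right _ hZ0
          exact mul_le_mul_of_nonneg_left h1 (by positivity)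
      _ = (10 * (s * (2 ^ v * 2 ^ (4 * v + 5 * s + β) * 12000 ^ (s + β) * 3 ^ s))) *
          M * Z := by ring
      _ ≤ (10 ^ 15 : ℝ) ^ s * M * Z := by
          apply mul_le_mul_of_nonneg_right _ hZ0
          exact mul_le_mul_of_nonneg_right h2 hM0
  have hs0 : (0 : ℝ) < s := by exact_mod_cast hs
  have hcard : (𝒱.card : ℝ) ≤ s := by
    have h : 𝒱.card ≤ s := by
      refine (card_filter_le _ _).trans ?_
      rw [Nat.card_Icc]
      omega
    exact_mod_cast h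
  have hfin : (s : ℝ) * (10 * ∑ v ∈ 𝒱, ((Fintype.card V).choose v : ℝ) * (2 ^ v *
      (2 ^ (4 * v + 5 * s + β) * (12000 ^ (s + β) * (v : ℝ) ^ ((7 / 8 : ℝ) * s) * Z)))) ≤
      s * ((10 ^ 15 : ℝ) ^ s * M * Z) := by
    rw [mul_sum, mul_sum]
    refine (sum_le_card_nsmul _ _ _ hterm).trans ?_
    rw [nsmul_eq_mul]
    exact mul_le_mul_of_nonneg_right hcard (by positivity)
  have hfin' := le_of_mul_le_mul_left hfin hs0
  exact (mul_le_mul_of_nonneg_left hsum (by norm_num)).trans hfin'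

open Classical in
/-- **the number of pairs of linear triple systems with a small boundary** -/
theorem count {s β τ Q : ℕ} (hs : 1 ≤ s) (hβ : 32 * β ≤ s) (hτ : 1 ≤ τ) (hτQ : τ ≤ Q)
    (hQ : 6 * s ≤ τ * Q) :
    ((univ.filter (fun S : Finset (Finset V) × Finset (Finset V) => Str s β S.1 S.2)).card : ℝ) ≤
      (10 ^ 15 : ℝ) ^ s * (Fintype.card V : ℝ) ^ ((7 / 8 : ℝ) * s) *
        (Q : ℝ) ^ ((1 / 8 : ℝ) * s + β) := by
  set C : ℝ := (10 ^ 15 : ℝ) ^ s * (Fintype.card V : ℝ) ^ ((7 / 8 : ℝ) * s) *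
        (Q : ℝ) ^ ((1 / 8 : ℝ) * s + β) with hC
  set 𝒮 := univ.filter (fun S : Finset (Finset V) × Finset (Finset V) => Str s β S.1 S.2)
    with h𝒮
  set r : Finset (Finset V) × Finset (Finset V) → (V ≃ Fin (Fintype.card V)) → Prop :=
    fun S π => 8 * nL (hiS τ S.1 S.2) π S.1 S.2 ≤ 7 * s with hr
  have hP : 0 < Fintype.card (V ≃ Fin (Fintype.card V)) :=
    Fintype.card_pos_iff.mpr ⟨Fintype.equivFin V⟩
  have hP' : (0 : ℝ) < Fintype.card (V ≃ Fin (Fintype.card V)) := by exact_mod_cast hP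
  have hdc := sum_card_bipartiteAbove_eq_sum_card_bipartiteBelow
    (s := 𝒮) (t := (univ : Finset (V ≃ Fin (Fintype.card V)))) r
  have h1 : 𝒮.card * Fintype.card (V ≃ Fin (Fintype.card V)) ≤
      10 * ∑ S ∈ 𝒮, ((univ : Finset (V ≃ Fin (Fintype.card V))).bipartiteAbove r S).card := by
    rw [mul_sum, ← smul_eq_mul]
    apply card_nsmul_le_sum
    intro S hS
    rw [h𝒮, mem_filter] at hS
    have h := many_orders hβ hS.2 (hiS τ S.1 S.2)
    refine h.trans (Nat.mul_le_mul_left 10 (card_le_card ?_))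
    intro π hπ
    simp only [bipartiteAbove, mem_filter, mem_univ, true_and, hr] at hπ ⊢
    exact hπ
  have h2 : ∀ π : V ≃ Fin (Fintype.card V),
      10 * ((𝒮.bipartiteBelow r π).card : ℝ) ≤ C := by
    intro π
    have h := count_one hs hβ hτ hτQ hQ π
    refine le_trans ?_ h
    apply mul_le_mul_of_nonneg_left _ (by norm_num)
    have h3 : (𝒮.bipartiteBelow r π).card ≤
        (univ.filter (fun S : Finset (Finset V) × Finset (Finset V) => Str s β S.1 S.2 ∧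
      8 * nL (hiS τ S.1 S.2) π S.1 S.2 ≤ 7 * s)).card := by
      apply card_le_card
      intro S hS
      simp only [bipartiteBelow, mem_filter, h𝒮, mem_univ, true_and, hr] at hS ⊢
      exact hS
    exact_mod_cast h3
  have h4 : (𝒮.card : ℝ) * Fintype.card (V ≃ Fin (Fintype.card V)) ≤
      C * Fintype.card (V ≃ Fin (Fintype.card V)) := by
    calc (𝒮.card : ℝ) * Fintype.card (V ≃ Fin (Fintype.card V))
        ≤ 10 * ∑ S ∈ 𝒮,
          (((univ : Finset (V ≃ Fin (Fintype.card V))).bipartiteAbove r S).card : ℝ) := by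
          exact_mod_cast h1
      _ = 10 * ∑ π : V ≃ Fin (Fintype.card V), ((𝒮.bipartiteBelow r π).card : ℝ) := by
          have h5 : (∑ S ∈ 𝒮,
            (((univ : Finset (V ≃ Fin (Fintype.card V))).bipartiteAbove r S).card : ℝ)) =
            ∑ π : V ≃ Fin (Fintype.card V), ((𝒮.bipartiteBelow r π).card : ℝ) := by
            exact_mod_cast hdc
          rw [h5]
      _ = ∑ π : V ≃ Fin (Fintype.card V), 10 * ((𝒮.bipartiteBelow r π).card : ℝ) := by
          rw [mul_sum]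
      _ ≤ (univ : Finset (V ≃ Fin (Fintype.card V))).card • C :=
          sum_le_card_nsmul _ _ _ (fun π _ => h2 π)
      _ = C * Fintype.card (V ≃ Fin (Fintype.card V)) := by
          rw [nsmul_eq_mul, card_univ, mul_comm]
  exact le_of_mul_le_mul_right h4 hP'

end Pool.Agent.Lib.FA
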