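import Pool.Agent.Lib.MP_6d56f7_co_FA.EDefs
import Pool.Agent.Lib.MP_6d56f7_co_FA.Sum

/-!
# Partial colourings as linear triple systems
-/

set_option autoImplicit false

namespace Pool.Agent.Lib.FA

open Finset Pool.Agent.Lib.FR

variable {n : ℕ}

private theorem emb_inl {T : J n} {v : Fin (2 * n)} : (Sum.inl v : Va n) ∈ tri T ↔ v ∈ T.2.1 := by
  simp [tri]

private theorem emb_inr {T : J n} {c : Fin (2 * n - 1)} : (Sum.inr c : Va n) ∈ tri T ↔ c = T.1 := by
  simp [tri]

private theorem emb_card (T : J n) : (tri T).card = 3 := by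
  obtain ⟨c, ⟨e, he⟩⟩ := T
  induction e using Sym2.ind with
  | _ u w =>
    have hne : u ≠ w := fun h => he (Sym2.mk_isDiag_iff.mpr h)
    have h1 : tri ((c, ⟨s(u, w), he⟩) : J n) = {Sum.inl u, Sum.inl w, Sum.inr c} := by
      ext a
      rcases a with v | c'
      · rw [emb_inl]
        simp
      · rw [emb_inr]
        simp
    rw [h1, card_eq_three]
    exact ⟨_, _, _, fun h => hne (Sum.inl_injective h), by simp, by simp, rfl⟩

/-- the element of a pair of variables -/
private def embE (a b : Va n) : Option (El n) :=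
  match a, b with
  | .inl u, .inl v => if h : u = v then none else
      some (.inl ⟨s(u, v), fun h' => h (Sym2.mk_isDiag_iff.mp h')⟩)
  | .inl u, .inr c => some (.inr (u, c))
  | .inr c, .inl u => some (.inr (u, c))
  | .inr _, .inr _ => none

private theorem embE_iff {a b : Va n} (hab : a ≠ b) (T : J n) :
    (a ∈ tri T ∧ b ∈ tri T) ↔ ∃ e, embE a b = some e ∧ T ∈ st n e := by
  rcases a with u | c <;> rcases b with v | c'
  · have huv : u ≠ v := fun h => hab (by rw [h])
    rw [emb_inl, emb_inl]
    constructor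
    · intro h
      refine ⟨_, dif_neg huv, ?_⟩
      rw [mem_st_inl]
      exact Subtype.ext ((Sym2.mem_and_mem_iff huv).mp h)
    · rintro ⟨e, h1, h2⟩
      have h3 : embE (Sum.inl u : Va n) (Sum.inl v) =
          some (.inl ⟨s(u, v), fun h' => huv (Sym2.mk_isDiag_iff.mp h')⟩) := dif_neg huv
      rw [h3] at h1
      rw [← Option.some_injective _ h1, mem_st_inl] at h2
      rw [h2]
      exact ⟨Sym2.mem_mk_left _ _, Sym2.mem_mk_right _ _⟩
  · rw [emb_inl, emb_inr]
    constructor
    · intro h
      exact ⟨_, rfl, mem_st_inr.mpr ⟨h.2.symm, h.1⟩⟩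
    · rintro ⟨e, h1, h2⟩
      rw [← Option.some_injective _ h1, mem_st_inr] at h2
      exact ⟨h2.2, h2.1.symm⟩
  · rw [emb_inl, emb_inr]
    constructor
    · intro h
      exact ⟨_, rfl, mem_st_inr.mpr ⟨h.1.symm, h.2⟩⟩
    · rintro ⟨e, h1, h2⟩
      rw [← Option.some_injective _ h1, mem_st_inr] at h2
      exact ⟨h2.1.symm, h2.2⟩
  · rw [emb_inr, emb_inr]
    constructor
    · intro h
      exact absurd (by rw [h.1, h.2]) hab
    · rintro ⟨e, h1, h2⟩
      exact absurd h1 (by simp [embE])

private theorem emb_cv {A : Finset (J n)} {a b : Va n} (hab : a ≠ b) :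
    Cv (A.image tri) a b ↔ ∃ e, embE a b = some e ∧ CvE A e := by
  constructor
  · rintro ⟨T', hT', h⟩
    obtain ⟨T, hT, rfl⟩ := mem_image.mp hT'
    obtain ⟨e, h1, h2⟩ := (embE_iff hab T).mp h
    exact ⟨e, h1, T, hT, h2⟩
  · rintro ⟨e, h1, T, hT, h2⟩
    exact ⟨tri T, mem_image_of_mem _ hT, (embE_iff hab T).mpr ⟨e, h1, h2⟩⟩

private theorem emb_lin {A : Finset (J n)} (hA : PC A) : Lin (A.image tri) := by
  refine ⟨fun T' hT' => ?_, fun T' hT' U' hU' hne => ?_⟩
  · obtain ⟨T, -, rfl⟩ := mem_image.mp hT'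
    exact emb_card T
  · obtain ⟨T, hT, rfl⟩ := mem_image.mp hT'
    obtain ⟨U, hU, rfl⟩ := mem_image.mp hU'
    by_contra hc
    rw [not_le, one_lt_card] at hc
    obtain ⟨a, ha, b, hb, hab⟩ := hc
    rw [mem_inter] at ha hb
    obtain ⟨e, h1, h2⟩ := (embE_iff hab T).mp ⟨ha.1, hb.1⟩
    obtain ⟨e', h3, h4⟩ := (embE_iff hab U).mp ⟨ha.2, hb.2⟩
    rw [h1] at h3
    rw [← Option.some_injective _ h3] at h4
    exact hne (by rw [hA e T hT U hU h2 h4])

open Classical in
private theorem emb_bd {A B : Finset (J n)} : bdN (A.image tri) (B.image tri) ≤ 2 * bdE A B := by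
  have h0 : bdN (A.image tri) (B.image tri) = (univ.filter (fun p : Va n × Va n => p.1 ≠ p.2 ∧
      Bd (A.image tri) (B.image tri) p.1 p.2)).card := by
    rw [bdN]
  have h1 : bdE A B = (univ.filter (fun a : El n => ¬ (CvE A a ↔ CvE B a))).card := by
    rw [bdE]
  have h2 : ((univ.filter (fun a : El n => ¬ (CvE A a ↔ CvE B a))).image some).card =
      (univ.filter (fun a : El n => ¬ (CvE A a ↔ CvE B a))).card :=
    card_image_of_injective _ (Option.some_injective _)
  rw [h0, h1, ← h2]
  refine card_le_mul_card_image_of_maps_to (f := fun p : Va n × Va n => embE p.1 p.2) ?_ 2 ?_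
  · rintro ⟨a, b⟩ hp
    rw [mem_filter] at hp
    obtain ⟨-, hab, hbd⟩ := hp
    simp only at hab hbd
    rw [Bd, emb_cv hab, emb_cv hab] at hbd
    rw [mem_image]
    cases he : embE a b with
    | none =>
      exfalso
      apply hbd
      constructor <;> rintro ⟨e, h, -⟩ <;> rw [he] at h <;> exact absurd h (by simp)
    | some e =>
      refine ⟨e, mem_filter.mpr ⟨mem_univ _, fun h => hbd ?_⟩, rfl⟩
      constructor
      · rintro ⟨e', h3, h4⟩
        rw [he] at h3
        rw [← Option.some_injective _ h3] at h4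
        exact ⟨e, he, h.mp h4⟩
      · rintro ⟨e', h3, h4⟩
        rw [he] at h3
        rw [← Option.some_injective _ h3] at h4
        exact ⟨e, he, h.mpr h4⟩
  · intro o ho
    obtain ⟨e, -, rfl⟩ := mem_image.mp ho
    rcases e with ⟨e, he⟩ | ⟨u, c⟩
    · induction e using Sym2.ind with
      | _ u w =>
        have hsub : (univ.filter (fun p : Va n × Va n => p.1 ≠ p.2 ∧
            Bd (A.image tri) (B.image tri) p.1 p.2)).filter (fun p => embE p.1 p.2 =
              some (Sum.inl ⟨s(u, w), he⟩)) ⊆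
            {(Sum.inl u, Sum.inl w), (Sum.inl w, Sum.inl u)} := by
          rintro ⟨a, b⟩ hp
          rw [mem_filter] at hp
          have h3 := hp.2
          simp only at h3
          rcases a with x | x <;> rcases b with y | y
          · by_cases hxy : x = y
            · simp [embE, hxy] at h3
            · simp only [embE, hxy, dite_false, Option.some.injEq, Sum.inl.injEq,
                Subtype.mk.injEq, Sym2.eq_iff] at h3
              rcases h3 with ⟨rfl, rfl⟩ | ⟨rfl, rfl⟩
              · exact mem_insert_self _ _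
              · exact mem_insert_of_mem (mem_singleton_self _)
          · simp [embE] at h3
          · simp [embE] at h3
          · simp [embE] at h3
        exact (card_le_card hsub).trans card_le_two
    · have hsub : (univ.filter (fun p : Va n × Va n => p.1 ≠ p.2 ∧
            Bd (A.image tri) (B.image tri) p.1 p.2)).filter (fun p => embE p.1 p.2 =
              some (Sum.inr (u, c))) ⊆
            {(Sum.inl u, Sum.inr c), (Sum.inr c, Sum.inl u)} := by
        rintro ⟨a, b⟩ hp
        rw [mem_filter] at hp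
        have h3 := hp.2
        simp only at h3
        rcases a with x | x <;> rcases b with y | y
        · by_cases hxy : x = y
          · simp [embE, hxy] at h3
          · simp [embE, hxy] at h3
        · simp only [embE, Option.some.injEq, Sum.inr.injEq, Prod.mk.injEq] at h3
          obtain ⟨rfl, rfl⟩ := h3
          exact mem_insert_self _ _
        · simp only [embE, Option.some.injEq, Sum.inr.injEq, Prod.mk.injEq] at h3
          obtain ⟨rfl, rfl⟩ := h3
          exact mem_insert_of_mem (mem_singleton_self _)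
        · simp [embE] at h3
      exact (card_le_card hsub).trans card_le_two

theorem tri_inj : Function.Injective (tri (n := n)) := by
  intro T T' h
  have h1 : T.1 = T'.1 := by
    have h2 : (Sum.inr T.1 : Va n) ∈ tri T' := by
      rw [← h, emb_inr]
    exact emb_inr.mp h2
  refine Prod.ext h1 (Subtype.ext (Sym2.ext fun v => ?_))
  rw [← emb_inl, ← emb_inl, h]

theorem tri_str {s β : ℕ} {A B : Finset (J n)} (hA : PC A) (hB : PC B) (hd : Disjoint A B)
    (hs : A.card + B.card = s) (hβ : bdE A B ≤ β) : Str s β (A.image tri) (B.image tri) := by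
  refine ⟨emb_lin hA, emb_lin hB, ?_, ?_, emb_bd.trans (Nat.mul_le_mul_left 2 hβ)⟩
  · exact (disjoint_image tri_inj).mpr hd
  · rw [card_image_of_injective _ tri_inj, card_image_of_injective _ tri_inj, hs]

open Classical in
/-- the number of pairs of disjoint partial colourings with a small boundary -/
theorem count_J {s β Q : ℕ} (hs : 1 ≤ s) (hβ : 32 * β ≤ s) (hQ : 6 * s ≤ Q * Q) :
    ((univ.filter (fun S : Finset (J n) × Finset (J n) => PC S.1 ∧ PC S.2 ∧ Disjoint S.1 S.2 ∧
      S.1.card + S.2.card = s ∧ bdE S.1 S.2 ≤ β)).card : ℝ) ≤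
      (10 ^ 15 : ℝ) ^ s * (4 * n : ℝ) ^ ((7 / 8 : ℝ) * s) * (Q : ℝ) ^ ((1 / 8 : ℝ) * s + β) := by
  have hQ1 : 1 ≤ Q := by
    rcases Nat.eq_zero_or_pos Q with h | h
    · rw [h] at hQ
      omega
    · exact h
  have h1 := count (V := Va n) hs hβ hQ1 le_rfl hQ
  have hinj : Function.Injective (fun S : Finset (J n) × Finset (J n) =>
      (S.1.image (tri (n := n)), S.2.image (tri (n := n)))) := by
    intro S S' h
    have h2 := Prod.mk.inj h
    exact Prod.ext (image_injective tri_inj h2.1) (image_injective tri_inj h2.2)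
  have h2 : (univ.filter (fun S : Finset (J n) × Finset (J n) => PC S.1 ∧ PC S.2 ∧
      Disjoint S.1 S.2 ∧ S.1.card + S.2.card = s ∧ bdE S.1 S.2 ≤ β)).card ≤
      (univ.filter (fun S : Finset (Finset (Va n)) × Finset (Finset (Va n)) =>
        Str s β S.1 S.2)).card := by
    refine card_le_card_of_injOn (fun S => (S.1.image tri, S.2.image tri)) ?_ hinj.injOn
    intro S hS
    rw [mem_coe, mem_filter] at hS
    rw [mem_coe, mem_filter]
    obtain ⟨-, h3, h4, h5, h6, h7⟩ := hS
    exact ⟨mem_univ _, tri_str h3 h4 h5 h6 h7⟩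
  have h3 : (Fintype.card (Va n) : ℝ) ≤ 4 * n := by
    rw [Fintype.card_sum, Fintype.card_fin, Fintype.card_fin]
    have h4 : 2 * n + (2 * n - 1) ≤ 4 * n := by omega
    exact_mod_cast h4
  have h4 : (Fintype.card (Va n) : ℝ) ^ ((7 / 8 : ℝ) * s) ≤ (4 * n : ℝ) ^ ((7 / 8 : ℝ) * s) :=
    Real.rpow_le_rpow (Nat.cast_nonneg _) h3 (by positivity)
  calc _ ≤ ((univ.filter (fun S : Finset (Finset (Va n)) × Finset (Finset (Va n)) =>
        Str s β S.1 S.2)).card : ℝ) := by exact_mod_cast h2
    _ ≤ _ := h1
    _ ≤ _ := by gcongr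

end Pool.Agent.Lib.FA
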