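import Pool.Agent.Lib.MP_6d56f7_co_FA.Loc

/-!
# The number of continuations at a point
-/

set_option autoImplicit false

namespace Pool.Agent.Lib.FA

open Finset

variable {V : Type} [Fintype V] [DecidableEq V]

variable {m : ℕ}

/-- the later points which are half known, from the past -/
private noncomputable def fibK (H : Finset V) (π : V ≃ Fin m) (a : V) (P₀ P₁ : Finset (Finset V)) :
    Finset V := by
  classical exact univ.filter (fun b => key H π a < key H π b ∧ Bd P₀ P₁ a b)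

private theorem halfP_eq (H : Finset V) (π : V ≃ Fin m) (a : V) (X Y : Finset (Finset V)) :
    halfP H π X Y a = fibK H π a (pre H π (key H π a) X) (pre H π (key H π a) Y) := rfl

/-- the two systems of new triples from the labelled pairs -/
private def fibD (a : V) (Z : Finset (Finset V × Bool)) : Finset (Finset V) × Finset (Finset V) :=
  ((Z.filter (fun z => z.2 = false)).image (fun z => insert a z.1),
    (Z.filter (fun z => z.2 = true)).image (fun z => insert a z.1))

/-- the labelled pairs of two systems -/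
private def fibZ (a : V) (F G : Finset (Finset V)) : Finset (Finset V × Bool) :=
  F.image (fun T => (T.erase a, false)) ∪ G.image (fun T => (T.erase a, true))

private theorem fib_inj (a : V) (F : Finset (Finset V)) (hF : ∀ T ∈ F, a ∈ T) (c : Bool) :
    Set.InjOn (fun T : Finset V => (T.erase a, c)) F := by
  intro T hT T' hT' h
  have h1 : T.erase a = T'.erase a := congrArg Prod.fst h
  rw [← insert_erase (hF T hT), ← insert_erase (hF T' hT'), h1]

private theorem fibZ_card (a : V) (F G : Finset (Finset V)) (hF : ∀ T ∈ F, a ∈ T)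
    (hG : ∀ T ∈ G, a ∈ T) : (fibZ a F G).card = F.card + G.card := by
  unfold fibZ
  rw [card_union_of_disjoint, card_image_of_injOn (fib_inj a F hF false),
    card_image_of_injOn (fib_inj a G hG true)]
  rw [disjoint_left]
  intro z hz hz'
  rw [mem_image] at hz hz'
  obtain ⟨T, _, rfl⟩ := hz
  obtain ⟨T', _, h⟩ := hz'
  have := congrArg Prod.snd h
  simp at this

private theorem fibD_fibZ (a : V) (F G : Finset (Finset V)) (hF : ∀ T ∈ F, a ∈ T)
    (hG : ∀ T ∈ G, a ∈ T) : fibD a (fibZ a F G) = (F, G) := by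
  unfold fibD fibZ
  refine Prod.ext ?_ ?_
  · ext T
    simp only [mem_image, mem_filter, mem_union]
    constructor
    · rintro ⟨z, ⟨hz | hz, hc⟩, rfl⟩
      · obtain ⟨T', hT', rfl⟩ := hz
        rw [insert_erase (hF T' hT')]
        exact hT'
      · obtain ⟨T', hT', rfl⟩ := hz
        simp at hc
    · intro hT
      exact ⟨(T.erase a, false), ⟨Or.inl ⟨T, hT, rfl⟩, rfl⟩, insert_erase (hF T hT)⟩
  · ext T
    simp only [mem_image, mem_filter, mem_union]
    constructor
    · rintro ⟨z, ⟨hz | hz, hc⟩, rfl⟩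
      · obtain ⟨T', hT', rfl⟩ := hz
        simp at hc
      · obtain ⟨T', hT', rfl⟩ := hz
        rw [insert_erase (hG T' hT')]
        exact hT'
    · intro hT
      exact ⟨(T.erase a, true), ⟨Or.inr ⟨T, hT, rfl⟩, rfl⟩, insert_erase (hG T hT)⟩

private theorem mem_fst' (H : Finset V) (π : V ≃ Fin m) (a : V) (X : Finset (Finset V))
    (T : Finset V) : T ∈ fst H π a X ↔ T ∈ X ∧ a ∈ T ∧ ∀ b ∈ T, key H π a ≤ key H π b := by
  unfold fst
  rw [mem_filter]

private theorem two_choose_le {w R : ℕ} (h : w ≤ R) : w.choose 2 * 2 ≤ R ^ 2 := by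
  have h1 : w.choose 2 * 2 = w * (w - 1) := by
    rw [Nat.choose_two_right]
    exact Nat.div_mul_cancel (Nat.even_mul_pred_self w).two_dvd
  rw [h1, sq]
  exact Nat.mul_le_mul h ((Nat.sub_le _ _).trans h)

/-- the number of continuations at the point `a` with a given past and a given profile -/
theorem fib (A H : Finset V) {Q : ℕ} (hHQ : H.card ≤ Q) (π : V ≃ Fin m) (a : V)
    (f : ℕ × ℕ × ℕ × ℕ) (P₀ P₁ : Finset (Finset V))
    (𝒮 : Finset (Finset (Finset V) × Finset (Finset V)))
    (h1 : ∀ S ∈ 𝒮, ∃ s β, Str s β S.1 S.2)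
    (h2 : ∀ S ∈ 𝒮, (newP H π S.1 S.2 a ∪ halfP H π S.1 S.2 a).card ≤ Q)
    (h3 : ∀ S ∈ 𝒮, newP H π S.1 S.2 a ⊆ A) (h4 : ∀ S ∈ 𝒮, prof H π S.1 S.2 a = f)
    (h5 : ∀ S ∈ 𝒮, pre H π (key H π a) S.1 = P₀ ∧ pre H π (key H π a) S.2 = P₁) :
    (𝒮.image (fun S => (fst H π a S.1, fst H π a S.2))).card ≤ bnd A.card Q f := by
  classical
  have hK : ∀ S ∈ 𝒮, halfP H π S.1 S.2 a = fibK H π a P₀ P₁ := by
    intro S hS
    rw [halfP_eq, (h5 S hS).1, (h5 S hS).2]
  set J : Finset (Finset V × Finset V) :=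
    𝒮.image (fun S => (newP H π S.1 S.2 a \ H, newP H π S.1 S.2 a ∩ H)) with hJ
  set W : Finset V × Finset V → Finset V := fun u => (u.1 ∪ u.2) ∪ fibK H π a P₀ P₁ with hW
  have hWS : ∀ S ∈ 𝒮, W (newP H π S.1 S.2 a \ H, newP H π S.1 S.2 a ∩ H) =
      newP H π S.1 S.2 a ∪ halfP H π S.1 S.2 a := by
    intro S hS
    rw [hK S hS, hW]
    beta_reduce
    rw [sdiff_union_inter]
  have hp : ∀ S ∈ 𝒮, (newP H π S.1 S.2 a \ H).card = f.1 ∧ (newP H π S.1 S.2 a ∩ H).card = f.2.1 ∧
      (fst H π a S.1).card + (fst H π a S.2).card = f.2.2.1 ∧ bdP H π S.1 S.2 a = f.2.2.2 := by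
    intro S hS
    rw [← h4 S hS]
    exact ⟨rfl, rfl, rfl, rfl⟩
  have hJc : J.card ≤ A.card.choose f.1 * Q.choose f.2.1 := by
    have h6 : J ⊆ A.powersetCard f.1 ×ˢ H.powersetCard f.2.1 := by
      intro u hu
      rw [hJ, mem_image] at hu
      obtain ⟨S, hS, rfl⟩ := hu
      rw [mem_product, mem_powersetCard, mem_powersetCard]
      exact ⟨⟨sdiff_subset.trans (h3 S hS), (hp S hS).1⟩, inter_subset_right, (hp S hS).2.1⟩
    refine (card_le_card h6).trans ?_
    rw [card_product, card_powersetCard, card_powersetCard]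
    exact Nat.mul_le_mul_left _ (Nat.choose_le_choose _ hHQ)
  have hWc : ∀ u ∈ J, (W u).card ≤ min (4 * f.2.2.1 + f.2.2.2) Q := by
    intro u hu
    rw [hJ, mem_image] at hu
    obtain ⟨S, hS, rfl⟩ := hu
    rw [hWS S hS]
    refine le_min ?_ (h2 S hS)
    obtain ⟨s, β, hStr⟩ := h1 S hS
    have h7 := loc_new2 hStr H π a
    have h8 := loc_half hStr H π a
    have h9 := (hp S hS).2.2.1
    have h10 := (hp S hS).2.2.2
    have h11 := card_union_le (newP H π S.1 S.2 a) (halfP H π S.1 S.2 a)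
    omega
  have hsub : 𝒮.image (fun S => (fst H π a S.1, fst H π a S.2)) ⊆
      J.biUnion (fun u => (((W u).powersetCard 2 ×ˢ (univ : Finset Bool)).powersetCard
        f.2.2.1).image (fibD a)) := by
    intro P hP
    rw [mem_image] at hP
    obtain ⟨S, hS, rfl⟩ := hP
    obtain ⟨s, β, hStr⟩ := h1 S hS
    have hF : ∀ T ∈ fst H π a S.1, a ∈ T := fun T hT => ((mem_fst' _ _ _ _ _).1 hT).2.1
    have hG : ∀ T ∈ fst H π a S.2, a ∈ T := fun T hT => ((mem_fst' _ _ _ _ _).1 hT).2.1
    rw [mem_biUnion]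
    refine ⟨(newP H π S.1 S.2 a \ H, newP H π S.1 S.2 a ∩ H), mem_image_of_mem _ hS, ?_⟩
    rw [mem_image]
    refine ⟨fibZ a (fst H π a S.1) (fst H π a S.2), ?_, fibD_fibZ a _ _ hF hG⟩
    rw [mem_powersetCard, fibZ_card a _ _ hF hG]
    refine ⟨?_, (hp S hS).2.2.1⟩
    rw [hWS S hS]
    have hsub2 := fst_sub hStr H π a
    intro z hz
    unfold fibZ at hz
    rw [mem_union, mem_image, mem_image] at hz
    rw [mem_product]
    refine ⟨?_, mem_univ _⟩
    rw [mem_powersetCard]
    rcases hz with ⟨T, hT, rfl⟩ | ⟨T, hT, rfl⟩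
    · refine ⟨fun b hb => hsub2.1 T hT b (mem_of_mem_erase hb) (ne_of_mem_erase hb), ?_⟩
      change (T.erase a).card = 2
      rw [card_erase_of_mem (hF T hT), hStr.linX.1 T ((mem_fst' _ _ _ _ _).1 hT).1]
    · refine ⟨fun b hb => hsub2.2 T hT b (mem_of_mem_erase hb) (ne_of_mem_erase hb), ?_⟩
      change (T.erase a).card = 2
      rw [card_erase_of_mem (hG T hT), hStr.linY.1 T ((mem_fst' _ _ _ _ _).1 hT).1]
  refine (card_le_card hsub).trans ?_
  unfold bnd
  refine (card_biUnion_le_card_mul _ _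
    (((min (4 * f.2.2.1 + f.2.2.2) Q) ^ 2).choose f.2.2.1) fun u hu => ?_).trans
    (Nat.mul_le_mul_right _ hJc)
  refine card_image_le.trans ?_
  rw [card_powersetCard, card_product, card_powersetCard, card_univ, Fintype.card_bool]
  exact Nat.choose_le_choose _ (two_choose_le (hWc u hu))

end Pool.Agent.Lib.FA
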