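import Pool.Agent.Lib.MP_6d56f7_co_FA.EDefs

/-!
# Union bound for random orderings
-/

set_option autoImplicit false

namespace Pool.Agent.Lib.FA

open Finset Pool.Agent.Lib.FR

/-- one more element -/
private theorem ord_step {J' : Type} [Fintype J'] [DecidableEq J'] {m : ℕ} (Z : Finset J')
    (t : ℕ) {a : J'} (ha : a ∉ Z) :
    Set.ncard {σ : J' ≃ Fin m | ∀ T ∈ insert a Z, (σ T : ℕ) < t} * m ≤
      Set.ncard {σ : J' ≃ Fin m | ∀ T ∈ Z, (σ T : ℕ) < t} * t := by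
  have h1 : Set.ncard ({σ : J' ≃ Fin m | ∀ T ∈ insert a Z, (σ T : ℕ) < t} ×ˢ
      (Set.univ : Set (Fin m))) ≤ Set.ncard ({σ : J' ≃ Fin m | ∀ T ∈ Z, (σ T : ℕ) < t} ×ˢ
        (Set.Iio t)) := by
    refine Set.ncard_le_ncard_of_injOn
      (fun p : (J' ≃ Fin m) × Fin m => (p.1.trans (Equiv.swap (p.1 a) p.2), ((p.1 a : ℕ)))) ?_ ?_
      ?_
    · rintro ⟨σ, j⟩ ⟨hσ, _⟩
      have hσa : (σ a : ℕ) < t := hσ a (mem_insert_self _ _)
      refine ⟨fun T hT => ?_, hσa⟩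
      have hσT : (σ T : ℕ) < t := hσ T (mem_insert_of_mem hT)
      have hne : σ T ≠ σ a := fun h => ha (by rwa [← σ.injective h])
      change ((Equiv.swap (σ a) j (σ T) : Fin m) : ℕ) < t
      by_cases hj : σ T = j
      · rw [hj, Equiv.swap_apply_right]
        exact hσa
      · rw [Equiv.swap_apply_of_ne_of_ne hne hj]
        exact hσT
    · rintro ⟨σ, j⟩ _ ⟨σ', j'⟩ _ h
      simp only [Prod.mk.injEq] at h
      obtain ⟨h2, h3⟩ := h
      have h4 : σ a = σ' a := Fin.ext h3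
      have h5 : j = j' := by
        have h6 := congrArg (fun e : J' ≃ Fin m => e a) h2
        simpa using h6
      subst h5
      rw [h4] at h2
      have h7 : σ = σ' := by
        ext x
        have h8 := congrArg (fun e : J' ≃ Fin m => e x) h2
        simp only [Equiv.trans_apply] at h8
        exact congrArg Fin.val ((Equiv.swap (σ' a) j).injective h8)
      rw [h7]
    · exact (Set.toFinite _).prod (Set.finite_Iio t)
  rw [Set.ncard_prod, Set.ncard_prod] at h1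
  have h2 : (Set.univ : Set (Fin m)).ncard = m := by
    rw [Set.ncard_univ, Nat.card_eq_fintype_card, Fintype.card_fin]
  have h3 : (Set.Iio t : Set ℕ).ncard = t := by
    rw [Set.ncard_eq_toFinset_card', Set.toFinset_Iio, Nat.card_Iio]
  rwa [h2, h3] at h1

private theorem ord_ind {J' : Type} [Fintype J'] [DecidableEq J'] {m : ℕ} (Z : Finset J')
    (t : ℕ) : Set.ncard {σ : J' ≃ Fin m | ∀ T ∈ Z, (σ T : ℕ) < t} * m ^ Z.card ≤
      Nat.card (J' ≃ Fin m) * t ^ Z.card := by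
  induction Z using Finset.induction_on with
  | empty =>
    simp only [card_empty, pow_zero, mul_one]
    exact (Set.ncard_le_card _)
  | insert a Z ha ih =>
    rw [card_insert_of_notMem ha, pow_succ, pow_succ]
    have h := ord_step (m := m) Z t ha
    calc _ = Set.ncard {σ : J' ≃ Fin m | ∀ T ∈ insert a Z, (σ T : ℕ) < t} * m * m ^ Z.card := by
          ring
      _ ≤ Set.ncard {σ : J' ≃ Fin m | ∀ T ∈ Z, (σ T : ℕ) < t} * t * m ^ Z.card :=
          Nat.mul_le_mul_right _ h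
      _ = Set.ncard {σ : J' ≃ Fin m | ∀ T ∈ Z, (σ T : ℕ) < t} * m ^ Z.card * t := by ring
      _ ≤ Nat.card (J' ≃ Fin m) * t ^ Z.card * t := Nat.mul_le_mul_right _ ih
      _ = _ := by ring

/-- the share of the orderings in which the elements of `Z` are among the first `t` -/
theorem ord_prob {J' : Type} [Fintype J'] [DecidableEq J'] {m : ℕ} (hm : Fintype.card J' = m)
    (Z : Finset J') (t : ℕ) :
    (Set.ncard {σ : J' ≃ Fin m | ∀ T ∈ Z, (σ T : ℕ) < t} : ℝ) / (Nat.card (J' ≃ Fin m) : ℝ) ≤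
      ((t : ℝ) / m) ^ Z.card := by
  have hne : Nonempty (J' ≃ Fin m) := ⟨Fintype.equivFinOfCardEq hm⟩
  have hpos : (0 : ℝ) < (Nat.card (J' ≃ Fin m) : ℝ) := by exact_mod_cast Nat.card_pos
  have h := ord_ind (m := m) Z t
  rcases Nat.eq_zero_or_pos m with h0 | h0
  · have h1 : Z = ∅ := by
      have h2 := Z.card_le_univ
      rw [hm, h0] at h2
      exact card_eq_zero.1 (Nat.le_zero.1 h2)
    subst h1
    rw [card_empty, pow_zero, div_le_one hpos]
    exact_mod_cast Set.ncard_le_card _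
  · have h1 : (0 : ℝ) < (m : ℝ) ^ Z.card := by positivity
    rw [div_pow, div_le_div_iff₀ hpos h1]
    have h2 : ((Set.ncard {σ : J' ≃ Fin m | ∀ T ∈ Z, (σ T : ℕ) < t} : ℕ) : ℝ) *
        (m : ℝ) ^ Z.card ≤ (Nat.card (J' ≃ Fin m) : ℝ) * (t : ℝ) ^ Z.card := by exact_mod_cast h
    linarith

open Classical in
/-- union bound for pairs of disjoint partial colourings -/
theorem bad_share {n s β t : ℕ} (hn : 1 ≤ n) :
    (Set.ncard {σ : J n ≃ Fin (Nat.card (J n)) | ∃ A B : Finset (J n), PC A ∧ PC B ∧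
      Disjoint A B ∧ A.card + B.card = s ∧ bdE A B ≤ β ∧ ∀ T ∈ A ∪ B, (σ T : ℕ) < t} : ℝ) /
      (Nat.card (J n ≃ Fin (Nat.card (J n))) : ℝ) ≤
      ((univ.filter (fun S : Finset (J n) × Finset (J n) => PC S.1 ∧ PC S.2 ∧ Disjoint S.1 S.2 ∧
        S.1.card + S.2.card = s ∧ bdE S.1 S.2 ≤ β)).card : ℝ) *
        ((t : ℝ) / (n * (2 * n - 1) ^ 2)) ^ s := by
  set F := univ.filter (fun S : Finset (J n) × Finset (J n) => PC S.1 ∧ PC S.2 ∧
    Disjoint S.1 S.2 ∧ S.1.card + S.2.card = s ∧ bdE S.1 S.2 ≤ β) with hF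
  set m := Nat.card (J n) with hm
  have hm2 : (m : ℝ) = n * (2 * n - 1) ^ 2 := by
    rw [hm, Nat.card_eq_fintype_card, Fintype.card_prod, Fintype.card_fin, edge_card]
    have h1 : ((2 * n - 1 : ℕ) : ℝ) = 2 * n - 1 := by
      rw [Nat.cast_sub (by omega)]
      push_cast
      ring
    push_cast
    rw [h1]
    ring
  have hsub : {σ : J n ≃ Fin m | ∃ A B : Finset (J n), PC A ∧ PC B ∧
      Disjoint A B ∧ A.card + B.card = s ∧ bdE A B ≤ β ∧ ∀ T ∈ A ∪ B, (σ T : ℕ) < t} ⊆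
      ⋃ S ∈ F, {σ : J n ≃ Fin m | ∀ T ∈ S.1 ∪ S.2, (σ T : ℕ) < t} := by
    rintro σ ⟨A, B, hA, hB, hd, hc, hb, hσ⟩
    simp only [Set.mem_iUnion]
    exact ⟨(A, B), mem_filter.2 ⟨mem_univ _, hA, hB, hd, hc, hb⟩, hσ⟩
  have h1 : (Set.ncard {σ : J n ≃ Fin m | ∃ A B : Finset (J n), PC A ∧ PC B ∧
      Disjoint A B ∧ A.card + B.card = s ∧ bdE A B ≤ β ∧ ∀ T ∈ A ∪ B, (σ T : ℕ) < t} : ℝ) ≤
      ∑ S ∈ F, (Set.ncard {σ : J n ≃ Fin m | ∀ T ∈ S.1 ∪ S.2, (σ T : ℕ) < t} : ℝ) := by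
    have h2 := (Set.ncard_le_ncard hsub (Set.toFinite _)).trans (F.set_ncard_biUnion_le _)
    exact_mod_cast h2
  refine (div_le_div_of_nonneg_right h1 (Nat.cast_nonneg _)).trans ?_
  rw [sum_div, ← nsmul_eq_mul]
  refine sum_le_card_nsmul _ _ _ fun S hS => ?_
  obtain ⟨_, _, _, hd, hc, _⟩ := mem_filter.1 hS
  have h3 := ord_prob (m := m) (Nat.card_eq_fintype_card (α := J n)).symm (S.1 ∪ S.2) t
  rwa [card_union_of_disjoint hd, hc, hm2] at h3

end Pool.Agent.Lib.FA
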