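import Pool.Agent.Lib.MP_6d56f7_co_FA.Emb
import Pool.Agent.Lib.MP_6d56f7_co_FA.Ord
import Pool.Agent.Lib.MP_6d56f7_co_FA.Asy

/-!
# Different colourings from sparse random lists are far apart
-/

set_option autoImplicit false

namespace Pool.Agent.Lib.FA

open Finset Filter Topology Pool.Agent.Lib.FR

private theorem main_mono {n : ℕ} {A B : Finset (J n)} (hA : PC A) (h : B ⊆ A) : PC B :=
  fun a T hT T' hT' h1 h2 => hA a T (h hT) T' (h hT') h1 h2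

private theorem main_cv {n : ℕ} {A B : Finset (J n)} (hA : PC A) (hB : PC B) (a : El n) :
    (CvE (A \ B) a ↔ CvE (B \ A) a) ↔ (CvE A a ↔ CvE B a) := by
  by_cases h1 : CvE A a
  · obtain ⟨T, hT, hTa⟩ := h1
    by_cases h2 : CvE B a
    · obtain ⟨U, hU, hUa⟩ := h2
      by_cases hTU : T = U
      · subst hTU
        have h3 : ¬ CvE (A \ B) a := by
          rintro ⟨W, hW, hWa⟩
          rw [Finset.mem_sdiff] at hW
          have h4 := hA a W hW.1 T hT hWa hTa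
          exact hW.2 (by rw [h4]; exact hU)
        have h4 : ¬ CvE (B \ A) a := by
          rintro ⟨W, hW, hWa⟩
          rw [Finset.mem_sdiff] at hW
          have h5 := hB a W hW.1 T hU hWa hTa
          exact hW.2 (by rw [h5]; exact hT)
        exact iff_of_true (iff_of_false h3 h4) (iff_of_true ⟨T, hT, hTa⟩ ⟨T, hU, hTa⟩)
      · have h3 : CvE (A \ B) a :=
          ⟨T, Finset.mem_sdiff.mpr ⟨hT, fun h => hTU (hB a T h U hU hTa hUa)⟩, hTa⟩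
        have h4 : CvE (B \ A) a :=
          ⟨U, Finset.mem_sdiff.mpr ⟨hU, fun h => hTU (hA a T hT U h hTa hUa)⟩, hUa⟩
        exact iff_of_true (iff_of_true h3 h4) (iff_of_true ⟨T, hT, hTa⟩ ⟨U, hU, hUa⟩)
    · have h3 : CvE (A \ B) a :=
        ⟨T, Finset.mem_sdiff.mpr ⟨hT, fun h => h2 ⟨T, h, hTa⟩⟩, hTa⟩
      have h4 : ¬ CvE (B \ A) a := by
        rintro ⟨W, hW, hWa⟩
        exact h2 ⟨W, (Finset.mem_sdiff.mp hW).1, hWa⟩
      exact iff_of_false (fun h => h4 (h.mp h3)) (fun h => h2 (h.mp ⟨T, hT, hTa⟩))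
  · have h3 : ¬ CvE (A \ B) a := by
      rintro ⟨W, hW, hWa⟩
      exact h1 ⟨W, (Finset.mem_sdiff.mp hW).1, hWa⟩
    by_cases h2 : CvE B a
    · obtain ⟨U, hU, hUa⟩ := h2
      have h4 : CvE (B \ A) a :=
        ⟨U, Finset.mem_sdiff.mpr ⟨hU, fun h => h1 ⟨U, h, hUa⟩⟩, hUa⟩
      exact iff_of_false (fun h => h3 (h.mpr h4)) (fun h => h1 (h.mpr ⟨U, hU, hUa⟩))
    · have h4 : ¬ CvE (B \ A) a := by
        rintro ⟨W, hW, hWa⟩
        exact h2 ⟨W, (Finset.mem_sdiff.mp hW).1, hWa⟩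
      exact iff_of_true (iff_of_false h3 h4) (iff_of_false h1 h2)

/-- passing to the differences -/
theorem diff_str {n : ℕ} {A B : Finset (J n)} (hA : PC A) (hB : PC B) :
    PC (A \ B) ∧ PC (B \ A) ∧ Disjoint (A \ B) (B \ A) ∧ bdE (A \ B) (B \ A) = bdE A B := by
  refine ⟨main_mono hA sdiff_subset, main_mono hB sdiff_subset, disjoint_sdiff_sdiff, ?_⟩
  classical
  unfold bdE
  congr 1
  ext a
  simp only [mem_filter, main_cv hA hB a]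

/-- the exceptional orderings are exceptional for some size -/
private theorem main_cover {n : ℕ} {D : ℝ} (σ : J n ≃ Fin (Nat.card (J n)))
    (h : ¬ ∀ t : ℕ, (t : ℝ) ≤ D * n ^ 2 →
        ∀ A B : Finset (J n), PC A → PC B → (∀ T ∈ A ∪ B, (σ T : ℕ) < t) → A ≠ B →
          (n : ℝ) ^ 2 / D ^ 17 < ((A \ B).card + (B \ A).card : ℕ) ∨
          (((A \ B).card + (B \ A).card : ℕ) : ℝ) / Real.log n < bdE A B) :
    ∃ s ∈ Icc 1 ⌊(n : ℝ) ^ 2 / D ^ 17⌋₊, ∃ A B : Finset (J n), PC A ∧ PC B ∧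
      Disjoint A B ∧ A.card + B.card = s ∧ bdE A B ≤ ⌊(s : ℝ) / Real.log n⌋₊ ∧
      ∀ T ∈ A ∪ B, (σ T : ℕ) < ⌊D * (n : ℝ) ^ 2⌋₊ := by
  push Not at h
  obtain ⟨t, ht, A, B, hA, hB, hσ, hne, h1, h2⟩ := h
  obtain ⟨h3, h4, h5, h6⟩ := diff_str hA hB
  refine ⟨(A \ B).card + (B \ A).card, mem_Icc.mpr ⟨?_, Nat.le_floor h1⟩, A \ B, B \ A, h3, h4,
    h5, rfl, ?_, ?_⟩
  · by_contra hc
    have h7 : (A \ B).card = 0 := by omega
    have h8 : (B \ A).card = 0 := by omega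
    rw [card_eq_zero, sdiff_eq_empty_iff_subset] at h7 h8
    exact hne (Subset.antisymm h7 h8)
  · rw [h6]
    exact Nat.le_floor h2
  · intro T hT
    have h7 : T ∈ A ∪ B := by
      rcases mem_union.mp hT with h | h
      · exact mem_union_left _ (Finset.mem_sdiff.mp h).1
      · exact mem_union_right _ (Finset.mem_sdiff.mp h).1
    exact lt_of_lt_of_le (hσ T h7) (Nat.le_floor ht)

/-- the bound for one size -/
private theorem main_size {n s : ℕ} {D : ℝ} (hn : 1 ≤ n) (hD : 0 ≤ D) (hlog : 32 ≤ Real.log n)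
    (hs : 1 ≤ s) :
    (Set.ncard {σ : J n ≃ Fin (Nat.card (J n)) | ∃ A B : Finset (J n), PC A ∧ PC B ∧
      Disjoint A B ∧ A.card + B.card = s ∧ bdE A B ≤ ⌊(s : ℝ) / Real.log n⌋₊ ∧
      ∀ T ∈ A ∪ B, (σ T : ℕ) < ⌊D * (n : ℝ) ^ 2⌋₊} : ℝ) /
      (Nat.card (J n ≃ Fin (Nat.card (J n))) : ℝ) ≤
      ((10 ^ 15 : ℝ) ^ s * (4 * n : ℝ) ^ ((7 / 8 : ℝ) * s) *
        (⌈Real.sqrt (6 * s)⌉₊ : ℝ) ^ ((1 / 8 : ℝ) * s + ⌊(s : ℝ) / Real.log n⌋₊)) *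
        (D / n) ^ s := by
  classical
  have hn' : (1 : ℝ) ≤ n := by exact_mod_cast hn
  have hβ : 32 * ⌊(s : ℝ) / Real.log n⌋₊ ≤ s := by
    have h1 : (⌊(s : ℝ) / Real.log n⌋₊ : ℝ) ≤ (s : ℝ) / Real.log n :=
      Nat.floor_le (by positivity)
    have h2 : (s : ℝ) / Real.log n ≤ (s : ℝ) / 32 :=
      div_le_div_of_nonneg_left (Nat.cast_nonneg _) (by norm_num) hlog
    have h3 : (32 : ℝ) * ⌊(s : ℝ) / Real.log n⌋₊ ≤ s := by linarith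
    exact_mod_cast h3
  have hQ : 6 * s ≤ ⌈Real.sqrt (6 * s)⌉₊ * ⌈Real.sqrt (6 * s)⌉₊ := by
    have h1 : Real.sqrt (6 * s) ≤ (⌈Real.sqrt (6 * s)⌉₊ : ℝ) := Nat.le_ceil _
    have h2 : (6 * s : ℝ) = Real.sqrt (6 * s) * Real.sqrt (6 * s) :=
      (Real.mul_self_sqrt (by positivity)).symm
    have h3 : (6 * s : ℝ) ≤ (⌈Real.sqrt (6 * s)⌉₊ : ℝ) * ⌈Real.sqrt (6 * s)⌉₊ :=
      h2.le.trans (mul_le_mul h1 h1 (Real.sqrt_nonneg _) (Nat.cast_nonneg _))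
    exact_mod_cast h3
  have h1 := bad_share (n := n) (s := s) (β := ⌊(s : ℝ) / Real.log n⌋₊)
    (t := ⌊D * (n : ℝ) ^ 2⌋₊) hn
  have h2 := count_J (n := n) hs hβ hQ
  have h3 : (⌊D * (n : ℝ) ^ 2⌋₊ : ℝ) / (n * (2 * n - 1) ^ 2) ≤ D / n := by
    have h4 : (⌊D * (n : ℝ) ^ 2⌋₊ : ℝ) ≤ D * (n : ℝ) ^ 2 := Nat.floor_le (by positivity)
    have h5 : (n : ℝ) ^ 2 ≤ (2 * n - 1) ^ 2 :=
      pow_le_pow_left₀ (by linarith) (by linarith) 2
    rw [div_le_div_iff₀ (by nlinarith) (by linarith)]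
    calc (⌊D * (n : ℝ) ^ 2⌋₊ : ℝ) * n ≤ (D * (n : ℝ) ^ 2) * n :=
          mul_le_mul_of_nonneg_right h4 (by linarith)
      _ = (D * n) * (n : ℝ) ^ 2 := by ring
      _ ≤ (D * n) * (2 * n - 1) ^ 2 := mul_le_mul_of_nonneg_left h5 (by positivity)
      _ = D * (n * (2 * n - 1) ^ 2) := by ring
  have h0 : (0 : ℝ) ≤ (⌊D * (n : ℝ) ^ 2⌋₊ : ℝ) / (n * (2 * n - 1) ^ 2) := by positivity
  refine h1.trans (mul_le_mul h2 (pow_le_pow_left₀ h0 h3 s) (pow_nonneg h0 s) (by positivity))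

/-- the bound for the exceptional orderings -/
private theorem main_bad {n : ℕ} {D : ℝ} (hn : 1 ≤ n) (hD : 0 ≤ D) (hlog : 32 ≤ Real.log n) :
    1 - (∑ s ∈ Icc 1 ⌊(n : ℝ) ^ 2 / D ^ 17⌋₊,
      ((10 ^ 15 : ℝ) ^ s * (4 * n : ℝ) ^ ((7 / 8 : ℝ) * s) *
        (⌈Real.sqrt (6 * s)⌉₊ : ℝ) ^ ((1 / 8 : ℝ) * s + ⌊(s : ℝ) / Real.log n⌋₊)) *
        (D / n) ^ s) ≤
      (Set.ncard {σ : J n ≃ Fin (Nat.card (J n)) | ∀ t : ℕ, (t : ℝ) ≤ D * n ^ 2 →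
        ∀ A B : Finset (J n), PC A → PC B → (∀ T ∈ A ∪ B, (σ T : ℕ) < t) → A ≠ B →
          (n : ℝ) ^ 2 / D ^ 17 < ((A \ B).card + (B \ A).card : ℕ) ∨
          (((A \ B).card + (B \ A).card : ℕ) : ℝ) / Real.log n < bdE A B} : ℝ) /
        (Nat.card (J n ≃ Fin (Nat.card (J n))) : ℝ) := by
  set G : Set (J n ≃ Fin (Nat.card (J n))) := {σ | ∀ t : ℕ, (t : ℝ) ≤ D * n ^ 2 →
        ∀ A B : Finset (J n), PC A → PC B → (∀ T ∈ A ∪ B, (σ T : ℕ) < t) → A ≠ B →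
          (n : ℝ) ^ 2 / D ^ 17 < ((A \ B).card + (B \ A).card : ℕ) ∨
          (((A \ B).card + (B \ A).card : ℕ) : ℝ) / Real.log n < bdE A B} with hG
  set Z : ℕ → Set (J n ≃ Fin (Nat.card (J n))) := fun s => {σ | ∃ A B : Finset (J n), PC A ∧
      PC B ∧ Disjoint A B ∧ A.card + B.card = s ∧ bdE A B ≤ ⌊(s : ℝ) / Real.log n⌋₊ ∧
      ∀ T ∈ A ∪ B, (σ T : ℕ) < ⌊D * (n : ℝ) ^ 2⌋₊} with hZ
  have hne : Nonempty (J n ≃ Fin (Nat.card (J n))) := ⟨Finite.equivFin _⟩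
  have hpos : (0 : ℝ) < (Nat.card (J n ≃ Fin (Nat.card (J n))) : ℝ) := by
    exact_mod_cast Nat.card_pos
  have h1 : Gᶜ ⊆ ⋃ s ∈ Icc 1 ⌊(n : ℝ) ^ 2 / D ^ 17⌋₊, Z s := by
    intro σ hσ
    obtain ⟨s, hs, h⟩ := main_cover (D := D) σ hσ
    exact Set.mem_biUnion hs h
  have h2 : (Gᶜ).ncard ≤ ∑ s ∈ Icc 1 ⌊(n : ℝ) ^ 2 / D ^ 17⌋₊, (Z s).ncard :=
    (Set.ncard_le_ncard h1 (Set.toFinite _)).trans (Finset.set_ncard_biUnion_le _ _)
  have h3 : (G.ncard : ℝ) + (Gᶜ).ncard = (Nat.card (J n ≃ Fin (Nat.card (J n))) : ℝ) := by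
    exact_mod_cast Set.ncard_add_ncard_compl G
  have h4 : ((Gᶜ).ncard : ℝ) / (Nat.card (J n ≃ Fin (Nat.card (J n))) : ℝ) ≤
      ∑ s ∈ Icc 1 ⌊(n : ℝ) ^ 2 / D ^ 17⌋₊,
      ((10 ^ 15 : ℝ) ^ s * (4 * n : ℝ) ^ ((7 / 8 : ℝ) * s) *
        (⌈Real.sqrt (6 * s)⌉₊ : ℝ) ^ ((1 / 8 : ℝ) * s + ⌊(s : ℝ) / Real.log n⌋₊)) *
        (D / n) ^ s := by
    have h5 : ((Gᶜ).ncard : ℝ) ≤ ∑ s ∈ Icc 1 ⌊(n : ℝ) ^ 2 / D ^ 17⌋₊, ((Z s).ncard : ℝ) := by
      exact_mod_cast h2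
    refine (div_le_div_of_nonneg_right h5 hpos.le).trans ?_
    rw [sum_div]
    exact sum_le_sum fun s hs => main_size hn hD hlog (mem_Icc.mp hs).1
  have h5 : (G.ncard : ℝ) / (Nat.card (J n ≃ Fin (Nat.card (J n))) : ℝ) =
      1 - ((Gᶜ).ncard : ℝ) / (Nat.card (J n ≃ Fin (Nat.card (J n))) : ℝ) := by
    rw [eq_sub_iff_add_eq, ← add_div, h3, div_self hpos.ne']
  rw [h5]
  linarith

/-- **partial colourings from sparse random lists**: they are equal, or they differ in many pairs,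
or their sets of covered elements differ in many elements -/
theorem far (d : ℕ → ℝ) (hd : Tendsto d atTop atTop) :
    Tendsto (fun n : ℕ =>
      (Set.ncard {σ : J n ≃ Fin (Nat.card (J n)) | ∀ t : ℕ, (t : ℝ) ≤ d n * n ^ 2 →
        ∀ A B : Finset (J n), PC A → PC B → (∀ T ∈ A ∪ B, (σ T : ℕ) < t) → A ≠ B →
          (n : ℝ) ^ 2 / d n ^ 17 < ((A \ B).card + (B \ A).card : ℕ) ∨
          (((A \ B).card + (B \ A).card : ℕ) : ℝ) / Real.log n < bdE A B} : ℝ) /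
        (Nat.card (J n ≃ Fin (Nat.card (J n))) : ℝ)) atTop (𝓝 1) := by
  have h0 := (asy d hd).const_sub 1
  rw [sub_zero] at h0
  have hlog : Tendsto (fun n : ℕ => Real.log n) atTop atTop :=
    Real.tendsto_log_atTop.comp tendsto_natCast_atTop_atTop
  refine tendsto_of_tendsto_of_tendsto_of_le_of_le' h0 tendsto_const_nhds ?_ ?_
  · filter_upwards [hd.eventually_ge_atTop 0, hlog.eventually_ge_atTop 32,
      eventually_ge_atTop 1] with n h1 h2 h3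
    exact main_bad h3 h1 h2
  · refine Eventually.of_forall fun n => ?_
    have hne : Nonempty (J n ≃ Fin (Nat.card (J n))) := ⟨Finite.equivFin _⟩
    have hpos : (0 : ℝ) < (Nat.card (J n ≃ Fin (Nat.card (J n))) : ℝ) := by
      exact_mod_cast Nat.card_pos
    rw [div_le_one hpos]
    exact_mod_cast (Set.ncard_le_ncard (Set.subset_univ _) (Set.toFinite _)).trans
      (Set.ncard_univ _).le

end Pool.Agent.Lib.FA
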